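import Pool.Agent.H673R2.OneOne.MainB
import Pool.Agent.H628R3.RO.A3

/-!
# The new reduction is computable in polynomial time; the test language; closure properties
-/

namespace Pool.Agent.H673R2.OneOne

open MeasureTheory Pool.Agent.NPC Pool.Agent.H628R3.RO

theorem asks_map (l c : ℕ) (w : List Bool) (A : Oracle) : (asks l c w).map A = rd l c w A := by
  unfold asks rd
  rw [List.map_map]
  rfl

theorem isFP_read {A : Oracle} {l c : List Bool → ℕ} {w : List Bool → List Bool}
    (hl : UPoly l) (hc : UPoly c) (hw : Poly w) : IsFP A (fun x => rd (l x) (c x) (w x) A) := by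
  have h := IsFP.tt (A := A) (Q := fun x => asks (l x) (c x) (w x)) (H := fun p => p.2)
    (p_asks hl hc hw) (Poly.snd Poly.id)
  simp only [asks_map] at h
  exact h

theorem u_kk {α : Type} [TEnc α] {z : α → List Bool} (hz : Poly z) :
    UPoly (fun a => kk (z a).length) := by
  unfold kk
  exact UPoly.add (UPoly.mul (UPoly.const 4) (UPoly.length hz)) (UPoly.const 4)

theorem u_cc (M : Alg) {α : Type} [TEnc α] {z : α → List Bool} (hz : Poly z) :
    UPoly (fun a => cc M (z a).length) := by
  unfold cc
  exact UPoly.add (UPoly.eval (UPoly.add (UPoly.mul (UPoly.const 18) (UPoly.length hz))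
    (UPoly.const 17)) (qb M)) (UPoly.const 2)

theorem isFP_gz (M : Alg) (A : Oracle) : IsFP A (fun z => gz (cc M) A z) := by
  have h1 : IsFP A (fun z : List Bool => rd (2 * kk z.length) (cc M z.length) z A) :=
    isFP_read (UPoly.mul (UPoly.const 2) (u_kk Poly.id)) (u_cc M Poly.id) Poly.id
  have h2 : IsFP A (fun y : List Bool =>
      rd (4 * kk (unpair y).1.length) 0 (unpair y).2 A) :=
    isFP_read (UPoly.mul (UPoly.const 4) (u_kk (Poly.fst poly_unpair))) (UPoly.const 0)
      (Poly.snd poly_unpair)
  have h3 := IsFP.comp h2 (IsFP.pair (IsFP.of_poly (A := A) (F := fun z => z) Poly.id) h1)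
  simp only [unpair_pairBits] at h3
  exact h3

theorem isFP_hz (M : Alg) {A : Oracle} {F : List Bool → List Bool} (hF : IsFP A F) :
    IsFP A (hz M A F) := by
  have h : IsFP A (fun z => F (pairBits z (gz (cc M) A z))) :=
    IsFP.comp hF (IsFP.pair (IsFP.of_poly (A := A) (F := fun z => z) Poly.id) (isFP_gz M A))
  exact h

theorem isFP_patched (M : Alg) {A : Oracle} {F : List Bool → List Bool} (hF : IsFP A F)
    (n : ℕ) : IsFP A (fun x => hz M A F (pairBits x (List.replicate n true))) :=
  IsFP.comp (isFP_hz M hF) (IsFP.of_poly (H622R2.poly_pairBits Poly.id (NPC.Poly.const _)))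

theorem isNP_RG (A : Oracle) (b : ℕ) : IsNP A (RG A b) := by
  refine isNP_of_tt A _
    (Q := fun p => asks (4 * kk (unpair p.1).1.length) b p.2)
    (T := fun p => decide (pairBits (unpair p.1.1).1 p.2 = p.1.1) &&
      decide (p.1.2.length = 2 * kk (unpair p.1.1).1.length)) ?_ ?_
    (8 * Polynomial.X + 8) fun x => ?_
  · exact p_asks (UPoly.mul (UPoly.const 4) (u_kk (Poly.fst (poly_unpair.comp
      (Poly.fst Poly.id))))) (UPoly.const b) (Poly.snd Poly.id)
  · have h1 : Poly (fun p : (List Bool × List Bool) × List Bool => p.1.1) :=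
      Poly.fst (Poly.fst Poly.id)
    have h2 : Poly (fun p : (List Bool × List Bool) × List Bool => p.1.2) :=
      Poly.snd (Poly.fst Poly.id)
    have h3 : Poly (fun p : (List Bool × List Bool) × List Bool => (unpair p.1.1).1) :=
      Poly.fst (poly_unpair.comp h1)
    exact Poly.and (Poly.decide_eq (H622R2.poly_pairBits h3 (Poly.snd Poly.id)) h1)
      (Poly.decide_eq (Poly.length h2) (UPoly.mul (UPoly.const 2) (u_kk h3)).toPoly)
  · simp only [Bool.and_eq_true, decide_eq_true_eq, asks_map]
    constructor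
    · rintro ⟨z, r, s, rfl, hs, hr⟩
      refine ⟨s, ?_, ?_, ?_⟩
      · rw [hs, length_pairBits]
        simp only [Polynomial.eval_add, Polynomial.eval_mul, Polynomial.eval_X,
          Polynomial.eval_ofNat]
        unfold kk
        omega
      · rw [unpair_pairBits]
        simp only
        rw [hr]
      · rw [unpair_pairBits]
        exact hs
    · rintro ⟨s, -, h1, h2⟩
      exact ⟨(unpair x).1, _, s, h1.symm, h2, rfl⟩

/-! ### closure properties of `NP` -/

theorem IsNP.red {A : Oracle} {L L' : Set (List Bool)} (h : Red A L L') (h' : IsNP A L') :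
    IsNP A L := by
  obtain ⟨F, hF, hFL⟩ := h
  obtain ⟨V, p, hV, hL'⟩ := h'
  obtain ⟨b, hb⟩ := hF.length_le
  -- the verifier
  have h1 : IsFP A (fun y => pairBits (F (unpair y).1) y) :=
    IsFP.pair (IsFP.comp hF (IsFP.of_poly (Poly.fst poly_unpair))) (IsFP.of_poly Poly.id)
  have h2 : IsFP A (fun u => pairBits (V (pairBits (unpair u).1 (unpair (unpair u).2).2)) u) :=
    IsFP.pair (IsFP.comp hV (IsFP.of_poly (H622R2.poly_pairBits (Poly.fst poly_unpair)
      (Poly.snd (poly_unpair.comp (Poly.snd poly_unpair)))))) (IsFP.of_poly Poly.id)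
  have h3 : Poly (fun t : List Bool => [decide ((unpair t).1 = [true]) &&
      decide ((unpair (unpair (unpair t).2).2).2.length ≤
        p.eval (unpair (unpair t).2).1.length)]) := by
    have h4 : Poly (fun t : List Bool => (unpair t).2) := Poly.snd poly_unpair
    have h5 : Poly (fun t : List Bool => (unpair (unpair t).2).1) :=
      Poly.fst (poly_unpair.comp h4)
    have h6 : Poly (fun t : List Bool => (unpair (unpair (unpair t).2).2).2) :=
      Poly.snd (poly_unpair.comp (Poly.snd (poly_unpair.comp h4)))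
    exact Poly.cons (Poly.and (Poly.decide_eq (Poly.fst poly_unpair) (NPC.Poly.const [true]))
      (Poly.decide_le (Poly.length h6) (UPoly.eval (UPoly.length h5) p).toPoly))
      (NPC.Poly.const [])
  have h7 := IsFP.comp (IsFP.of_poly (A := A) h3) (IsFP.comp h2 h1)
  simp only [unpair_pairBits] at h7
  refine ⟨_, p.comp b, h7, fun x => ?_⟩
  rw [hFL, hL']
  simp only [unpair_pairBits, Polynomial.eval_comp, List.cons.injEq, and_true,
    Bool.and_eq_true, decide_eq_true_eq]
  constructor
  · rintro ⟨w, hw, hV1⟩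
    exact ⟨w, hw.trans (eval_mono p (hb x)), hV1, hw⟩
  · rintro ⟨w, -, hV1, hw⟩
    exact ⟨w, hw, hV1⟩

theorem IsNP.inter {A : Oracle} {L L' : Set (List Bool)} (h : IsNP A L) (h' : IsNP A L') :
    IsNP A (L ∩ L') := by
  obtain ⟨V, p, hV, hL⟩ := h
  obtain ⟨V', p', hV', hL'⟩ := h'
  have h1 : Poly (fun y : List Bool => (unpair y).1) := Poly.fst poly_unpair
  have h2 : Poly (fun y : List Bool => (unpair (unpair y).2).1) :=
    Poly.fst (poly_unpair.comp (Poly.snd poly_unpair))
  have h3 : Poly (fun y : List Bool => (unpair (unpair y).2).2) :=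
    Poly.snd (poly_unpair.comp (Poly.snd poly_unpair))
  have h4 : IsFP A (fun y => pairBits (pairBits (V (pairBits (unpair y).1 (unpair (unpair y).2).1))
      (V' (pairBits (unpair y).1 (unpair (unpair y).2).2))) y) :=
    IsFP.pair (IsFP.pair (IsFP.comp hV (IsFP.of_poly (H622R2.poly_pairBits h1 h2)))
      (IsFP.comp hV' (IsFP.of_poly (H622R2.poly_pairBits h1 h3)))) (IsFP.of_poly Poly.id)
  have h5 : Poly (fun t : List Bool => [decide ((unpair (unpair t).1).1 = [true]) &&
      (decide ((unpair (unpair t).1).2 = [true]) &&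
      (decide ((unpair (unpair (unpair t).2).2).1.length ≤
        p.eval (unpair (unpair t).2).1.length) &&
      decide ((unpair (unpair (unpair t).2).2).2.length ≤
        p'.eval (unpair (unpair t).2).1.length)))]) := by
    have g1 : Poly (fun t : List Bool => unpair (unpair t).1) :=
      poly_unpair.comp (Poly.fst poly_unpair)
    have g2 : Poly (fun t : List Bool => unpair (unpair t).2) :=
      poly_unpair.comp (Poly.snd poly_unpair)
    have g3 : Poly (fun t : List Bool => unpair (unpair (unpair t).2).2) :=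
      poly_unpair.comp (Poly.snd g2)
    exact Poly.cons (Poly.and (Poly.decide_eq (Poly.fst g1) (NPC.Poly.const [true]))
      (Poly.and (Poly.decide_eq (Poly.snd g1) (NPC.Poly.const [true]))
      (Poly.and (Poly.decide_le (Poly.length (Poly.fst g3))
        (UPoly.eval (UPoly.length (Poly.fst g2)) p).toPoly)
      (Poly.decide_le (Poly.length (Poly.snd g3))
        (UPoly.eval (UPoly.length (Poly.fst g2)) p').toPoly))))
      (NPC.Poly.const [])
  have h7 := IsFP.comp (IsFP.of_poly (A := A) h5) h4
  simp only [unpair_pairBits] at h7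
  refine ⟨_, 2 * p + 1 + p', h7, fun x => ?_⟩
  rw [Set.mem_inter_iff, hL, hL']
  simp only [unpair_pairBits, List.cons.injEq, and_true, Bool.and_eq_true, decide_eq_true_eq]
  constructor
  · rintro ⟨⟨w, hw, hV1⟩, w', hw', hV1'⟩
    refine ⟨pairBits w w', ?_, ?_⟩
    · rw [length_pairBits]
      simp only [Polynomial.eval_add, Polynomial.eval_mul, Polynomial.eval_one,
        Polynomial.eval_ofNat]
      omega
    · rw [unpair_pairBits]
      exact ⟨hV1, hV1', hw, hw'⟩
  · rintro ⟨w, -, hV1, hV1', hw, hw'⟩
    exact ⟨⟨_, hw, hV1⟩, _, hw', hV1'⟩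

theorem IsNP.union {A : Oracle} {L L' : Set (List Bool)} (h : IsNP A L) (h' : IsNP A L') :
    IsNP A (L ∪ L') := by
  obtain ⟨V, p, hV, hL⟩ := h
  obtain ⟨V', p', hV', hL'⟩ := h'
  have h1 : Poly (fun y : List Bool => (unpair y).1) := Poly.fst poly_unpair
  have h2 : Poly (fun y : List Bool => (unpair y).2.tail) := Poly.tail (Poly.snd poly_unpair)
  have h4 : IsFP A (fun y => pairBits (pairBits (V (pairBits (unpair y).1 (unpair y).2.tail))
      (V' (pairBits (unpair y).1 (unpair y).2.tail))) y) :=
    IsFP.pair (IsFP.pair (IsFP.comp hV (IsFP.of_poly (H622R2.poly_pairBits h1 h2)))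
      (IsFP.comp hV' (IsFP.of_poly (H622R2.poly_pairBits h1 h2)))) (IsFP.of_poly Poly.id)
  have h5 : Poly (fun t : List Bool =>
      [(decide ((unpair (unpair t).1).1 = [true]) &&
      (decide ((unpair (unpair t).2).2.head? = some true) &&
      decide ((unpair (unpair t).2).2.tail.length ≤
        p.eval (unpair (unpair t).2).1.length))) ||
      (decide ((unpair (unpair t).1).2 = [true]) &&
      (decide ((unpair (unpair t).2).2.head? = some false) &&
      decide ((unpair (unpair t).2).2.tail.length ≤
        p'.eval (unpair (unpair t).2).1.length)))]) := by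
    have g1 : Poly (fun t : List Bool => unpair (unpair t).1) :=
      poly_unpair.comp (Poly.fst poly_unpair)
    have g2 : Poly (fun t : List Bool => unpair (unpair t).2) :=
      poly_unpair.comp (Poly.snd poly_unpair)
    exact Poly.cons (Poly.or
      (Poly.and (Poly.decide_eq (Poly.fst g1) (NPC.Poly.const [true]))
      (Poly.and (Poly.decide_eq (Poly.head? (Poly.snd g2)) (NPC.Poly.const (some true)))
      (Poly.decide_le (Poly.length (Poly.tail (Poly.snd g2)))
        (UPoly.eval (UPoly.length (Poly.fst g2)) p).toPoly)))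
      (Poly.and (Poly.decide_eq (Poly.snd g1) (NPC.Poly.const [true]))
      (Poly.and (Poly.decide_eq (Poly.head? (Poly.snd g2)) (NPC.Poly.const (some false)))
      (Poly.decide_le (Poly.length (Poly.tail (Poly.snd g2)))
        (UPoly.eval (UPoly.length (Poly.fst g2)) p').toPoly))))
      (NPC.Poly.const [])
  have h7 := IsFP.comp (IsFP.of_poly (A := A) h5) h4
  simp only [unpair_pairBits] at h7
  refine ⟨_, p + p' + 1, h7, fun x => ?_⟩
  rw [Set.mem_union, hL, hL']
  simp only [unpair_pairBits, List.cons.injEq, and_true, Bool.and_eq_true, decide_eq_true_eq,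
    Bool.or_eq_true]
  constructor
  · rintro (⟨w, hw, hV1⟩ | ⟨w, hw, hV1⟩)
    · refine ⟨true :: w, ?_, Or.inl ⟨hV1, rfl, hw⟩⟩
      simp only [List.length_cons, Polynomial.eval_add, Polynomial.eval_one]
      omega
    · refine ⟨false :: w, ?_, Or.inr ⟨hV1, rfl, hw⟩⟩
      simp only [List.length_cons, Polynomial.eval_add, Polynomial.eval_one]
      omega
  · rintro ⟨w, -, ⟨hV1, -, hw⟩ | ⟨hV1, -, hw⟩⟩
    · exact Or.inl ⟨_, hw, hV1⟩
    · exact Or.inr ⟨_, hw, hV1⟩

end Pool.Agent.H673R2.OneOne
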