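import Pool.Agent.H673R2.OneOne.QAlg

/-!
# The main estimate: preparations
-/

namespace Pool.Agent.H673R2.OneOne

open MeasureTheory Pool.Agent.NPC Pool.Agent.H628R3.RO

/-- the strings of length `n` -/
def SS (n : ℕ) : Finset (List Bool) := (strsEq n).toFinset

theorem mem_SS {n : ℕ} {x : List Bool} : x ∈ SS n ↔ x.length = n := by
  unfold SS
  rw [List.mem_toFinset, mem_strsEq]

theorem card_SS (n : ℕ) : (SS n).card = 2 ^ n := by
  unfold SS
  rw [List.toFinset_card_of_nodup (nodup_strsEq n), length_strsEq]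

/-- the hypotheses for the main estimate -/
structure Hyp (k q N : ℕ) (κf κd : Cand) (T : List Bool → QA Bool) : Prop where
  card : ∀ v A, ((T v).qs A).card ≤ q
  len : ∀ v A, ∀ x ∈ (T v).qs A, x.length ≤ N
  hd : ∀ v A, ∀ x ∈ (T v).qs A, x ∉ spots (4 * k) κd
  hf : ∀ v A, ∀ x ∈ (T v).qs A, x ∉ spots (2 * k) κf
  d2 : 2 ≤ κd.1
  f2 : 2 ≤ κf.1
  ne : κf ≠ κd
  near : 6 * k + 3 ≤ N
  dummy : ∀ x ∈ spots (4 * k) κd, x.length ≤ N

/-- the relevant part of the oracle -/
structure View where
  /-- the contents of the blocks `(0, s)` and `(1, s)` -/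
  g : Bool → List Bool → List Bool
  /-- the content of the dummy block -/
  u : List Bool
  /-- the values of the algorithms -/
  t : List Bool → Bool
  /-- the questions of the algorithms -/
  Q : List Bool → Finset (List Bool)

/-- the relevant part of the oracle -/
def view (k : ℕ) (κd : Cand) (T : List Bool → QA Bool) (A : Oracle) : View where
  g := fun b s => if s.length = 2 * k then rd (4 * k) b.toNat s A else []
  u := rd (4 * k) κd.1 κd.2 A
  t := fun v => (T v).val A
  Q := fun v => (T v).qs A

variable {k q N : ℕ} {κf κd : Cand} {T : List Bool → QA Bool}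

theorem view_g {b : Bool} {s : List Bool} (hs : s ∈ SS (2 * k)) (A : Oracle) :
    (view k κd T A).g b s = rd (4 * k) b.toNat s A := by
  rw [mem_SS] at hs
  simp only [view, if_pos hs]

theorem length_g {b : Bool} {s : List Bool} (hs : s ∈ SS (2 * k)) (A : Oracle) :
    (view k κd T A).g b s ∈ SS (4 * k) := by
  rw [view_g hs, mem_SS, length_rd]

theorem rd_congr {l c : ℕ} {w : List Bool} {A A' : Oracle}
    (h : ∀ x ∈ spots l (c, w), A x = A' x) : rd l c w A = rd l c w A' := by
  apply List.map_congr_left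
  intro i hi
  exact h _ (M2.mem_spots.2 ⟨i, List.mem_range.1 hi, rfl⟩)

theorem notMem_spots_of_ne {l l' : ℕ} {κ κ' : Cand} (h : κ ≠ κ') {x : List Bool}
    (hx : x ∈ spots l κ) : x ∉ spots l' κ' := by
  intro hx'
  obtain ⟨i, _, rfl⟩ := M2.mem_spots.1 hx
  obtain ⟨j, _, h1⟩ := M2.mem_spots.1 hx'
  obtain ⟨h2, _, h3⟩ := pos_inj h1
  exact h (Prod.ext h2 h3).symm

theorem length_near {b : Bool} {s : List Bool} (hs : s.length = 2 * k) {x : List Bool}
    (hx : x ∈ spots (4 * k) (b.toNat, s)) : x.length ≤ 6 * k + 3 := by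
  obtain ⟨i, hi, rfl⟩ := M2.mem_spots.1 hx
  rw [length_pos]
  have : b.toNat ≤ 1 := Bool.toNat_le b
  simp only [hs]
  omega

theorem Hyp.near_ne (H : Hyp k q N κf κd T) (b : Bool) (s : List Bool) :
    ((b.toNat, s) : Cand) ≠ κd ∧ ((b.toNat, s) : Cand) ≠ κf := by
  have h1 : b.toNat ≤ 1 := Bool.toNat_le b
  have h2 := H.d2
  have h3 := H.f2
  constructor
  · intro h
    have : b.toNat = κd.1 := congrArg Prod.fst h
    omega
  · intro h
    have : b.toNat = κf.1 := congrArg Prod.fst h
    omega

theorem Hyp.view_eq (H : Hyp k q N κf κd T) {A A' : Oracle}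
    (h : ∀ x : List Bool, x.length ≤ N → x ∉ spots (2 * k) κf → A x = A' x) :
    view k κd T A = view k κd T A' := by
  have h1 : ∀ v, (T v).val A' = (T v).val A ∧ (T v).qs A' = (T v).qs A := fun v =>
    (T v).loc A A' fun x hx => (h x (H.len v A x hx) (H.hf v A x hx)).symm
  unfold view
  congr 1
  · funext b s
    split_ifs with hs
    · apply rd_congr
      intro x hx
      exact h x ((length_near hs hx).trans H.near)
        (notMem_spots_of_ne (H.near_ne b s).2 hx)
    · rfl
  · apply rd_congr
    intro x hx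
    exact h x (H.dummy x hx) (notMem_spots_of_ne H.ne.symm hx)
  · funext v
    exact (h1 v).1.symm
  · funext v
    exact (h1 v).2.symm

theorem Hyp.loc_f (H : Hyp k q N κf κd T) (P : View → Prop) :
    Loc {x | x.length ≤ N ∧ x ∉ spots (2 * k) κf} {A | P (view k κd T A)} := by
  intro A A' h
  simp only [Set.mem_ofPred_eq, H.view_eq fun x h1 h2 => h x ⟨h1, h2⟩]

theorem finite_K (N : ℕ) (p : List Bool → Prop) : {x : List Bool | x.length ≤ N ∧ p x}.Finite :=
  (List.finite_length_le Bool N).subset fun _ hx => hx.1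

theorem Hyp.meas (H : Hyp k q N κf κd T) (P : View → Prop) :
    MeasurableSet {A | P (view k κd T A)} :=
  measurableSet_of_loc (finite_K N _) (H.loc_f P)

theorem Hyp.loc_d (H : Hyp k q N κf κd T)
    (P : (List Bool → Bool) → (List Bool → Finset (List Bool)) → Prop) :
    Loc {x | x.length ≤ N ∧ x ∉ spots (4 * k) κd}
      {A | P (view k κd T A).t (view k κd T A).Q} := by
  intro A A' h
  have h1 : ∀ v, (T v).val A' = (T v).val A ∧ (T v).qs A' = (T v).qs A := fun v =>
    (T v).loc A A' fun x hx => (h x ⟨H.len v A x hx, H.hd v A x hx⟩).symm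
  have h2 : (view k κd T A).t = (view k κd T A').t := by
    funext v
    exact (h1 v).1.symm
  have h3 : (view k κd T A).Q = (view k κd T A').Q := by
    funext v
    exact (h1 v).2.symm
  simp only [Set.mem_ofPred_eq, h2, h3]

/-- exchanging two blocks which are not asked about -/
theorem stay {v : List Bool} {κ κ' : Cand} {l : ℕ} {A : Oracle}
    (h : ∀ x ∈ (view k κd T A).Q v, x ∉ spots l κ ∧ x ∉ spots l κ') :
    (view k κd T (act l κ κ' A)).t v = (view k κd T A).t v ∧
      (view k κd T (act l κ κ' A)).Q v = (view k κd T A).Q v :=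
  (T v).loc A _ fun x hx => act_other l κ κ' A (h x hx).1 (h x hx).2

/-- `F` contains a string of the block `(b, s)` -/
def Tch (k : ℕ) (F : Finset (List Bool)) (b : Bool) (s : List Bool) : Prop :=
  ∃ x ∈ F, x ∈ spots (4 * k) (b.toNat, s)

open Classical in
theorem card_touch (F : Finset (List Bool)) (b : Bool) (S : Finset (List Bool)) :
    (S.filter (fun s => Tch k F b s)).card ≤ F.card := by
  apply Finset.card_le_card_of_surjOn (fun x => if h : ∃ s, x ∈ spots (4 * k) (b.toNat, s) then
    h.choose else [])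
  intro s hs
  rw [Finset.mem_coe, Finset.mem_filter] at hs
  obtain ⟨-, x, hx, hxs⟩ := hs
  refine ⟨x, hx, ?_⟩
  have h : ∃ s, x ∈ spots (4 * k) (b.toNat, s) := ⟨s, hxs⟩
  simp only [dif_pos h]
  have h1 := h.choose_spec
  by_contra hne
  exact notMem_spots_of_ne (fun h2 => hne (congrArg Prod.snd h2)) h1 hxs

/-- counting pairs by their first entry -/
theorem card_pairs {α β : Type*} (S : Finset α) (S' : Finset β) (P : α → β → Prop)
    [DecidablePred (fun p : α × β => P p.1 p.2)] [∀ a, DecidablePred (fun b => P a b)] :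
    ((S ×ˢ S').filter (fun p => P p.1 p.2)).card =
      ∑ a ∈ S, (S'.filter (fun b => P a b)).card := by
  rw [Finset.card_filter, Finset.sum_product]
  refine Finset.sum_congr rfl fun a _ => ?_
  rw [Finset.card_filter]

/-- counting pairs by their second entry -/
theorem card_pairs' {α β : Type*} (S : Finset α) (S' : Finset β) (P : α → β → Prop)
    [DecidablePred (fun p : α × β => P p.1 p.2)] [∀ b, DecidablePred (fun a => P a b)] :
    ((S ×ˢ S').filter (fun p => P p.1 p.2)).card =
      ∑ b ∈ S', (S.filter (fun a => P a b)).card := by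
  rw [Finset.card_filter, Finset.sum_product_right]
  refine Finset.sum_congr rfl fun a _ => ?_
  rw [Finset.card_filter]

open Classical in
/-- the questions about the value of a block `(b, s)` rarely touch this block -/
theorem Hyp.own (H : Hyp k q N κf κd T) (b : Bool) :
    ∑ s ∈ SS (2 * k), prob {A | Tch k ((view k κd T A).Q ((view k κd T A).g b s)) b s} ≤ q := by
  have h1 : ∀ s ∈ SS (2 * k), prob {A | Tch k ((view k κd T A).Q ((view k κd T A).g b s)) b s} ≤
      prob {A | Tch k ((view k κd T A).Q (view k κd T A).u) b s} := by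
    intro s hs
    rw [← prob_act (4 * k) (b.toNat, s) κd (H.meas fun w => Tch k (w.Q (w.g b s)) b s)]
    apply M2.prob_mono
    intro A hA
    simp only [Set.mem_ofPred_eq] at hA ⊢
    rw [view_g hs] at hA
    have h2 : rd (4 * k) b.toNat s (act (4 * k) (b.toNat, s) κd A) = (view k κd T A).u :=
      rd_act_left _ _ _ _
    rw [h2] at hA
    by_contra hno
    have h3 := (stay (k := k) (κd := κd) (T := T) (v := (view k κd T A).u) (l := 4 * k)
      (κ := (b.toNat, s)) (κ' := κd) (A := A) fun x hx =>
        ⟨fun h => hno ⟨x, hx, h⟩, H.hd _ A x hx⟩).2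
    rw [h3] at hA
    exact hno hA
  refine (Finset.sum_le_sum h1).trans ?_
  apply sum_prob_le_card _ _ (fun s _ => H.meas fun w => Tch k (w.Q w.u) b s)
  intro A
  have h4 := card_touch (k := k) ((view k κd T A).Q (view k κd T A).u) b (SS (2 * k))
  exact_mod_cast h4.trans (H.card _ A)

end Pool.Agent.H673R2.OneOne
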