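import Pool.Agent.H673R2.OneOne.CoreA

/-!
# The main estimate: first part
-/

namespace Pool.Agent.H673R2.OneOne

open MeasureTheory Pool.Agent.NPC Pool.Agent.H628R3.RO

variable {k q N : ℕ} {κf κd : Cand} {T : List Bool → QA Bool}

/-- all good values are values of `G` or `G'` -/
def E1 (k : ℕ) (s : List Bool) (w : View) : Prop :=
  w.t (w.g false s) = true ∧ ∀ v ∈ SS (4 * k), w.t v = true →
    ∃ s' ∈ SS (2 * k), w.g false s' = v ∨ w.g true s' = v

/-- the value of `s` is good, but no value of `G'` is -/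
def E2 (k : ℕ) (s : List Bool) (w : View) : Prop :=
  w.t (w.g false s) = true ∧ ∀ s' ∈ SS (2 * k), ¬ w.t (w.g true s') = true

open Classical in
/-- the good values -/
noncomputable def RR (k : ℕ) (t : List Bool → Bool) : Finset (List Bool) :=
  (SS (4 * k)).filter (fun v => t v = true)

open Classical in
/-- the number of values whose questions touch the block `(b, s)` -/
noncomputable def T0 (k : ℕ) (Q : List Bool → Finset (List Bool)) (b : Bool) (s : List Bool) : ℕ :=
  ((SS (4 * k)).filter (fun v => Tch k (Q v) b s)).card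

open Classical in
theorem Hyp.sum_T0 (H : Hyp k q N κf κd T) (A : Oracle) (b : Bool) :
    ∑ s ∈ SS (2 * k), T0 k (view k κd T A).Q b s ≤ 2 ^ (4 * k) * q := by
  unfold T0
  rw [← card_pairs (SS (2 * k)) (SS (4 * k)) (fun s v => Tch k ((view k κd T A).Q v) b s),
    card_pairs' (SS (2 * k)) (SS (4 * k)) (fun s v => Tch k ((view k κd T A).Q v) b s),
    ← card_SS (4 * k)]
  refine (Finset.sum_le_card_nsmul _ _ q fun v _ => ?_).trans (le_of_eq (smul_eq_mul _ _))
  exact (card_touch _ _ _).trans (H.card _ A)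

open Classical in
theorem Hyp.sum_E1_aux (H : Hyp k q N κf κd T) :
    ∑ s ∈ SS (2 * k), prob {A | (view k κd T A).u ∈ RR k (view k κd T A).t ∧
      (RR k (view k κd T A).t).card ≤ 2 * 2 ^ (2 * k) + T0 k (view k κd T A).Q false s} ≤
      2 + q := by
  have h1 : ∀ s ∈ SS (2 * k), prob {A | (view k κd T A).u ∈ RR k (view k κd T A).t ∧
      (RR k (view k κd T A).t).card ≤ 2 * 2 ^ (2 * k) + T0 k (view k κd T A).Q false s} ≤
      ∑ v ∈ SS (4 * k), (1 / 2) ^ (4 * k) * prob {A | v ∈ RR k (view k κd T A).t ∧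
        (RR k (view k κd T A).t).card ≤ 2 * 2 ^ (2 * k) + T0 k (view k κd T A).Q false s} := by
    intro s _
    have h2 : {A | (view k κd T A).u ∈ RR k (view k κd T A).t ∧
      (RR k (view k κd T A).t).card ≤ 2 * 2 ^ (2 * k) + T0 k (view k κd T A).Q false s} ⊆
        ⋃ v ∈ SS (4 * k), ({A : Oracle | rd (4 * k) κd.1 κd.2 A = v} ∩
          {A | v ∈ RR k (view k κd T A).t ∧ (RR k (view k κd T A).t).card ≤
            2 * 2 ^ (2 * k) + T0 k (view k κd T A).Q false s}) := by
      intro A hA
      simp only [Set.mem_iUnion]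
      refine ⟨(view k κd T A).u, ?_, rfl, hA⟩
      rw [mem_SS]
      exact length_rd _ _ _ _
    refine (M2.prob_mono h2).trans ((prob_biUnion_le' _ _).trans ?_)
    apply Finset.sum_le_sum
    intro v hv
    rw [mem_SS] at hv
    refine le_of_eq (prob_pattern hv (finite_K N _) ?_ (H.loc_d fun t Q => v ∈ RR k t ∧
      (RR k t).card ≤ 2 * 2 ^ (2 * k) + T0 k Q false s))
    intro x hx
    exact hx.2
  refine (Finset.sum_le_sum h1).trans ?_
  simp only [← Finset.mul_sum]
  have h3 : ∑ s ∈ SS (2 * k), ∑ v ∈ SS (4 * k), prob {A | v ∈ RR k (view k κd T A).t ∧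
        (RR k (view k κd T A).t).card ≤ 2 * 2 ^ (2 * k) + T0 k (view k κd T A).Q false s} ≤
      ((2 * 2 ^ (2 * k) * 2 ^ (2 * k) + 2 ^ (4 * k) * q : ℕ) : ℝ) := by
    rw [← Finset.sum_product (f := fun p : List Bool × List Bool =>
      prob {A | p.2 ∈ RR k (view k κd T A).t ∧
        (RR k (view k κd T A).t).card ≤ 2 * 2 ^ (2 * k) + T0 k (view k κd T A).Q false p.1})]
    apply sum_prob_le_card _ _ (fun p _ => H.meas fun w => p.2 ∈ RR k w.t ∧
      (RR k w.t).card ≤ 2 * 2 ^ (2 * k) + T0 k w.Q false p.1)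
    intro A
    simp only [Set.mem_ofPred_eq]
    rw [card_pairs (SS (2 * k)) (SS (4 * k)) (fun s v => v ∈ RR k (view k κd T A).t ∧
        (RR k (view k κd T A).t).card ≤ 2 * 2 ^ (2 * k) + T0 k (view k κd T A).Q false s)]
    norm_cast
    calc ∑ s ∈ SS (2 * k), ((SS (4 * k)).filter (fun v => v ∈ RR k (view k κd T A).t ∧
        (RR k (view k κd T A).t).card ≤
          2 * 2 ^ (2 * k) + T0 k (view k κd T A).Q false s)).card
        ≤ ∑ s ∈ SS (2 * k), (2 * 2 ^ (2 * k) + T0 k (view k κd T A).Q false s) := by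
          apply Finset.sum_le_sum
          intro s _
          by_cases h4 : (RR k (view k κd T A).t).card ≤
              2 * 2 ^ (2 * k) + T0 k (view k κd T A).Q false s
          · refine le_trans (Finset.card_le_card ?_) h4
            intro v hv
            exact (Finset.mem_filter.1 hv).2.1
          · rw [Finset.card_eq_zero.2]
            · exact Nat.zero_le _
            · apply Finset.filter_false_of_mem
              intro v _ h5
              exact h4 h5.2
      _ ≤ 2 * 2 ^ (2 * k) * 2 ^ (2 * k) + 2 ^ (4 * k) * q := by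
          rw [Finset.sum_add_distrib, Finset.sum_const, card_SS, smul_eq_mul]
          have := H.sum_T0 A false
          nlinarith
  have h4 : (1 / 2 : ℝ) ^ (4 * k) * ((2 * 2 ^ (2 * k) * 2 ^ (2 * k) + 2 ^ (4 * k) * q : ℕ) : ℝ) =
      2 + q := by
    push_cast
    have h5 : (2 : ℝ) ^ (4 * k) = 2 ^ (2 * k) * 2 ^ (2 * k) := by
      rw [← pow_add]
      congr 1
      ring
    have h6 : (1 / 2 : ℝ) ^ (4 * k) * 2 ^ (4 * k) = 1 := by
      rw [← mul_pow]
      norm_num
    calc (1 / 2 : ℝ) ^ (4 * k) * (2 * 2 ^ (2 * k) * 2 ^ (2 * k) + 2 ^ (4 * k) * q) =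
        (1 / 2 : ℝ) ^ (4 * k) * (2 ^ (2 * k) * 2 ^ (2 * k)) * 2 +
          (1 / 2 : ℝ) ^ (4 * k) * 2 ^ (4 * k) * q := by ring
      _ = 2 + q := by rw [← h5, h6]; ring
  rw [← h4]
  exact mul_le_mul_of_nonneg_left h3 (by positivity)

theorem Hyp.sum_E1 (H : Hyp k q N κf κd T) :
    ∑ s ∈ SS (2 * k), prob {A | E1 k s (view k κd T A)} ≤ 2 * q + 2 := by
  classical
  have h1 : ∀ s ∈ SS (2 * k), prob {A | E1 k s (view k κd T A)} ≤
      prob {A | Tch k ((view k κd T A).Q (view k κd T A).u) false s} +
      prob {A | (view k κd T A).u ∈ RR k (view k κd T A).t ∧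
      (RR k (view k κd T A).t).card ≤ 2 * 2 ^ (2 * k) + T0 k (view k κd T A).Q false s} := by
    intro s hs
    rw [← prob_act (4 * k) (0, s) κd (H.meas (E1 k s))]
    refine le_trans (M2.prob_mono ?_) (M2.prob_union_le _ _)
    intro A hA
    by_cases hT : Tch k ((view k κd T A).Q (view k κd T A).u) false s
    · exact Or.inl hT
    right
    simp only [Set.mem_ofPred_eq, E1] at hA
    obtain ⟨hA1, hA2⟩ := hA
    rw [view_g hs] at hA1
    have h2 : rd (4 * k) false.toNat s (act (4 * k) (0, s) κd A) = (view k κd T A).u :=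
      rd_act_left _ _ _ _
    rw [h2] at hA1
    have hst : ∀ v, ¬ Tch k ((view k κd T A).Q v) false s →
        (view k κd T (act (4 * k) (0, s) κd A)).t v = (view k κd T A).t v := fun v hv =>
      (stay (k := k) (κd := κd) (T := T) (v := v) (l := 4 * k)
      (κ := (0, s)) (κ' := κd) (A := A) fun x hx =>
        ⟨fun h => hv ⟨x, hx, h⟩, H.hd _ A x hx⟩).1
    refine ⟨?_, ?_⟩
    · unfold RR
      rw [Finset.mem_filter]
      refine ⟨?_, ?_⟩
      · rw [mem_SS]
        exact length_rd _ _ _ _
      · rw [← hst _ hT]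
        exact hA1
    · have h3 : RR k (view k κd T A).t ⊆
          ((SS (2 * k)).image (fun s' => (view k κd T (act (4 * k) (0, s) κd A)).g false s') ∪
          (SS (2 * k)).image (fun s' => (view k κd T (act (4 * k) (0, s) κd A)).g true s')) ∪
          (SS (4 * k)).filter (fun v => Tch k ((view k κd T A).Q v) false s) := by
        intro v hv
        unfold RR at hv
        rw [Finset.mem_filter] at hv
        by_cases hTv : Tch k ((view k κd T A).Q v) false s
        · exact Finset.mem_union_right _ (Finset.mem_filter.2 ⟨hv.1, hTv⟩)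
        · apply Finset.mem_union_left
          obtain ⟨s', hs', h4 | h4⟩ := hA2 v hv.1 (by rw [hst v hTv]; exact hv.2)
          · exact Finset.mem_union_left _ (Finset.mem_image.2 ⟨s', hs', h4⟩)
          · exact Finset.mem_union_right _ (Finset.mem_image.2 ⟨s', hs', h4⟩)
      refine (Finset.card_le_card h3).trans ((Finset.card_union_le _ _).trans ?_)
      apply Nat.add_le_add _ (le_refl _)
      refine (Finset.card_union_le _ _).trans ?_
      have h5 := Finset.card_image_le (s := SS (2 * k))
        (f := fun s' => (view k κd T (act (4 * k) (0, s) κd A)).g false s')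
      have h6 := Finset.card_image_le (s := SS (2 * k))
        (f := fun s' => (view k κd T (act (4 * k) (0, s) κd A)).g true s')
      rw [card_SS] at h5 h6
      omega
  refine (Finset.sum_le_sum h1).trans ?_
  rw [Finset.sum_add_distrib]
  have h7 := H.sum_E1_aux
  have h8 : ∑ s ∈ SS (2 * k), prob {A | Tch k ((view k κd T A).Q (view k κd T A).u) false s} ≤
      q := by
    apply sum_prob_le_card _ _ (fun s _ => H.meas fun w => Tch k (w.Q w.u) false s)
    intro A
    have h4 := card_touch (k := k) ((view k κd T A).Q (view k κd T A).u) false (SS (2 * k))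
    exact_mod_cast h4.trans (H.card _ A)
  linarith

end Pool.Agent.H673R2.OneOne
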