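import Pool.Agent.H673R2.OneOne.CoreB

/-!
# The main estimate: second part
-/

namespace Pool.Agent.H673R2.OneOne

open MeasureTheory Pool.Agent.NPC Pool.Agent.H628R3.RO

variable {k q N : ℕ} {κf κd : Cand} {T : List Bool → QA Bool}

open Classical in
/-- the seeds with a good value of `G'` -/
noncomputable def HH (k : ℕ) (w : View) : Finset (List Bool) :=
  (SS (2 * k)).filter (fun s => w.t (w.g true s) = true)

open Classical in
/-- the number of seeds such that the questions about their value of `G'` touch the block -/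
noncomputable def H0 (k : ℕ) (w : View) (b : Bool) (s : List Bool) : ℕ :=
  ((SS (2 * k)).filter (fun s' => Tch k (w.Q (w.g true s')) b s)).card

/-- the main case -/
def YY (k : ℕ) (s s' : List Bool) (w : View) : Prop :=
  s' ∈ HH k w ∧ (HH k w).card ≤ 1 + H0 k w false s + H0 k w true s'

open Classical in
theorem Hyp.sum_H0 (H : Hyp k q N κf κd T) (A : Oracle) (b : Bool) :
    ∑ s ∈ SS (2 * k), H0 k (view k κd T A) b s ≤ 2 ^ (2 * k) * q := by
  unfold H0
  rw [← card_pairs (SS (2 * k)) (SS (2 * k))
      (fun s s' => Tch k ((view k κd T A).Q ((view k κd T A).g true s')) b s),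
    card_pairs' (SS (2 * k)) (SS (2 * k))
      (fun s s' => Tch k ((view k κd T A).Q ((view k κd T A).g true s')) b s),
    ← card_SS (2 * k)]
  refine (Finset.sum_le_card_nsmul _ _ q fun v _ => ?_).trans (le_of_eq (smul_eq_mul _ _))
  exact (card_touch _ _ _).trans (H.card _ A)

open Classical in
theorem Hyp.card_YY (H : Hyp k q N κf κd T) (A : Oracle) :
    ((SS (2 * k) ×ˢ SS (2 * k)).filter (fun p => YY k p.1 p.2 (view k κd T A))).card ≤
      (2 * q + 1) * 2 ^ (2 * k) * 2 ^ k := by
  set w := view k κd T A with hw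
  by_cases h : (HH k w).card ≤ 2 ^ k
  · rw [card_pairs (SS (2 * k)) (SS (2 * k)) (fun s s' => YY k s s' w)]
    calc ∑ s ∈ SS (2 * k), ((SS (2 * k)).filter (fun s' => YY k s s' w)).card
        ≤ ∑ s ∈ SS (2 * k), 2 ^ k := by
          apply Finset.sum_le_sum
          intro s _
          refine le_trans (Finset.card_le_card ?_) h
          intro s' hs'
          exact (Finset.mem_filter.1 hs').2.1
      _ = 2 ^ (2 * k) * 2 ^ k := by rw [Finset.sum_const, card_SS, smul_eq_mul]
      _ ≤ (2 * q + 1) * 2 ^ (2 * k) * 2 ^ k := by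
          rw [mul_assoc]
          exact Nat.le_mul_of_pos_left _ (by omega)
  · push Not at h
    set F := (SS (2 * k) ×ˢ SS (2 * k)).filter (fun p => YY k p.1 p.2 w) with hF
    have h1 : F.card * 2 ^ k ≤ ∑ p ∈ F, (H0 k w false p.1 + H0 k w true p.2) := by
      rw [← smul_eq_mul]
      apply Finset.card_nsmul_le_sum
      intro p hp
      have h2 := (Finset.mem_filter.1 hp).2.2
      omega
    have h3 : ∑ p ∈ F, (H0 k w false p.1 + H0 k w true p.2) ≤
        ∑ p ∈ SS (2 * k) ×ˢ SS (2 * k), (H0 k w false p.1 + H0 k w true p.2) :=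
      Finset.sum_le_sum_of_subset (Finset.filter_subset _ _)
    have h4 : ∑ p ∈ SS (2 * k) ×ˢ SS (2 * k), (H0 k w false p.1 + H0 k w true p.2) ≤
        2 * q * 2 ^ (2 * k) * 2 ^ (2 * k) := by
      rw [Finset.sum_add_distrib]
      rw [Finset.sum_product, Finset.sum_product_right]
      simp only [Finset.sum_const, smul_eq_mul, ← Finset.mul_sum, card_SS]
      have h5 := H.sum_H0 A false
      have h6 := H.sum_H0 A true
      rw [← hw] at h5 h6
      nlinarith [Nat.mul_le_mul_left (2 ^ (2 * k)) h5, Nat.mul_le_mul_left (2 ^ (2 * k)) h6]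
    have h7 : (2 : ℕ) ^ (2 * k) = 2 ^ k * 2 ^ k := by
      rw [← pow_add]
      congr 1
      ring
    have h8 : F.card * 2 ^ k ≤ (2 * q * 2 ^ (2 * k) * 2 ^ k) * 2 ^ k := by
      refine (h1.trans (h3.trans h4)).trans (le_of_eq ?_)
      conv_lhs => rw [h7]
      conv_rhs => rw [h7]
      ring
    have h9 := Nat.le_of_mul_le_mul_right h8 (by positivity)
    refine h9.trans ?_
    apply Nat.mul_le_mul_right
    apply Nat.mul_le_mul_right
    omega

theorem Hyp.sum_E2 (H : Hyp k q N κf κd T) :
    ∑ s ∈ SS (2 * k), prob {A | E2 k s (view k κd T A)} ≤ 2 * q + (2 * q + 1) * 2 ^ k := by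
  classical
  have h1 : ∀ s ∈ SS (2 * k), ∀ s' ∈ SS (2 * k), prob {A | E2 k s (view k κd T A)} ≤
      prob {A | Tch k ((view k κd T A).Q ((view k κd T A).g true s')) false s} +
      prob {A | Tch k ((view k κd T A).Q ((view k κd T A).g true s')) true s'} +
      prob {A | YY k s s' (view k κd T A)} := by
    intro s hs s' hs'
    rw [← prob_act (4 * k) (0, s) (1, s') (H.meas (E2 k s))]
    refine le_trans (M2.prob_mono (S' := ({A | Tch k ((view k κd T A).Q
      ((view k κd T A).g true s')) false s} ∪ {A | Tch k ((view k κd T A).Q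
        ((view k κd T A).g true s')) true s'}) ∪ {A | YY k s s' (view k κd T A)}) ?_)
      ((M2.prob_union_le _ _).trans (add_le_add_left (M2.prob_union_le _ _) _))
    intro A hA
    set A' := act (4 * k) (0, s) (1, s') A with hA'
    by_cases hT : Tch k ((view k κd T A).Q ((view k κd T A).g true s')) false s
    · exact Or.inl (Or.inl hT)
    by_cases hT' : Tch k ((view k κd T A).Q ((view k κd T A).g true s')) true s'
    · exact Or.inl (Or.inr hT')
    right
    obtain ⟨hA1, hA2⟩ := hA
    have hst : ∀ v, ¬ Tch k ((view k κd T A).Q v) false s →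
        ¬ Tch k ((view k κd T A).Q v) true s' →
        (view k κd T A').t v = (view k κd T A).t v := fun v hv hv' =>
      (stay (k := k) (κd := κd) (T := T) (v := v) (l := 4 * k)
      (κ := (0, s)) (κ' := (1, s')) (A := A) fun x hx =>
        ⟨fun h => hv ⟨x, hx, h⟩, fun h => hv' ⟨x, hx, h⟩⟩).1
    have h2 : (view k κd T A').g false s = (view k κd T A).g true s' := by
      rw [view_g hs, view_g hs']
      exact rd_act_left (4 * k) (0, s) (1, s') A
    have h3 : ∀ s'' ∈ SS (2 * k), s'' ≠ s' →
        (view k κd T A').g true s'' = (view k κd T A).g true s'' := by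
      intro s'' hs'' hne
      rw [view_g hs'', view_g hs'']
      refine rd_act_other (4 * k) (4 * k) (0, s) (1, s') (1, s'') A ?_ ?_
      · intro h
        exact absurd (congrArg Prod.fst h) (by simp)
      · intro h
        exact hne (congrArg Prod.snd h)
    refine ⟨?_, ?_⟩
    · unfold HH
      rw [Finset.mem_filter]
      refine ⟨hs', ?_⟩
      rw [← hst _ hT hT', ← h2]
      exact hA1
    · have h4 : HH k (view k κd T A) ⊆ ({s'} ∪
          (SS (2 * k)).filter (fun s'' => Tch k ((view k κd T A).Q
            ((view k κd T A).g true s'')) false s)) ∪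
          (SS (2 * k)).filter (fun s'' => Tch k ((view k κd T A).Q
            ((view k κd T A).g true s'')) true s') := by
        intro s'' hs''
        unfold HH at hs''
        rw [Finset.mem_filter] at hs''
        by_cases hne : s'' = s'
        · exact Finset.mem_union_left _ (Finset.mem_union_left _ (Finset.mem_singleton.2 hne))
        by_cases hU : Tch k ((view k κd T A).Q ((view k κd T A).g true s'')) false s
        · exact Finset.mem_union_left _ (Finset.mem_union_right _
            (Finset.mem_filter.2 ⟨hs''.1, hU⟩))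
        by_cases hU' : Tch k ((view k κd T A).Q ((view k κd T A).g true s'')) true s'
        · exact Finset.mem_union_right _ (Finset.mem_filter.2 ⟨hs''.1, hU'⟩)
        exfalso
        apply hA2 s'' hs''.1
        show (view k κd T A').t ((view k κd T A').g true s'') = true
        rw [h3 s'' hs''.1 hne, hst _ hU hU']
        exact hs''.2
      refine (Finset.card_le_card h4).trans ((Finset.card_union_le _ _).trans ?_)
      apply Nat.add_le_add _ (le_refl _)
      refine (Finset.card_union_le _ _).trans ?_
      rw [Finset.card_singleton]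
      rfl
  have h5 : ∑ s ∈ SS (2 * k), ∑ s' ∈ SS (2 * k), prob {A | E2 k s (view k κd T A)} ≤
      ∑ s ∈ SS (2 * k), ∑ s' ∈ SS (2 * k),
      (prob {A | Tch k ((view k κd T A).Q ((view k κd T A).g true s')) false s} +
      prob {A | Tch k ((view k κd T A).Q ((view k κd T A).g true s')) true s'} +
      prob {A | YY k s s' (view k κd T A)}) :=
    Finset.sum_le_sum fun s hs => Finset.sum_le_sum fun s' hs' => h1 s hs s' hs'
  simp only [Finset.sum_add_distrib] at h5
  have h6 : ∑ s ∈ SS (2 * k), ∑ s' ∈ SS (2 * k),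
      prob {A | Tch k ((view k κd T A).Q ((view k κd T A).g true s')) false s} ≤
      ((2 ^ (2 * k) * q : ℕ) : ℝ) := by
    rw [← Finset.sum_product (f := fun p : List Bool × List Bool =>
      prob {A | Tch k ((view k κd T A).Q ((view k κd T A).g true p.2)) false p.1})]
    apply sum_prob_le_card _ _ (fun p _ => H.meas fun w => Tch k (w.Q (w.g true p.2)) false p.1)
    intro A
    simp only [Set.mem_ofPred_eq]
    rw [card_pairs' (SS (2 * k)) (SS (2 * k))
      (fun s s' => Tch k ((view k κd T A).Q ((view k κd T A).g true s')) false s),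
      ← card_SS (2 * k)]
    norm_cast
    refine (Finset.sum_le_card_nsmul _ _ q fun v _ => ?_).trans (le_of_eq (smul_eq_mul _ _))
    exact (card_touch _ _ _).trans (H.card _ A)
  have h7 : ∑ s ∈ SS (2 * k), ∑ s' ∈ SS (2 * k),
      prob {A | Tch k ((view k κd T A).Q ((view k κd T A).g true s')) true s'} ≤
      2 ^ (2 * k) * q := by
    rw [Finset.sum_const, card_SS, nsmul_eq_mul]
    push_cast
    exact mul_le_mul_of_nonneg_left (H.own true) (by positivity)
  have h8 : ∑ s ∈ SS (2 * k), ∑ s' ∈ SS (2 * k),
      prob {A | YY k s s' (view k κd T A)} ≤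
      (((2 * q + 1) * 2 ^ (2 * k) * 2 ^ k : ℕ) : ℝ) := by
    rw [← Finset.sum_product (f := fun p : List Bool × List Bool =>
      prob {A | YY k p.1 p.2 (view k κd T A)})]
    apply sum_prob_le_card _ _ (fun p _ => H.meas (YY k p.1 p.2))
    intro A
    exact_mod_cast H.card_YY A
  have h9 : ∑ s ∈ SS (2 * k), ∑ s' ∈ SS (2 * k), prob {A | E2 k s (view k κd T A)} =
      2 ^ (2 * k) * ∑ s ∈ SS (2 * k), prob {A | E2 k s (view k κd T A)} := by
    rw [Finset.mul_sum]
    refine Finset.sum_congr rfl fun s _ => ?_
    rw [Finset.sum_const, card_SS, nsmul_eq_mul]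
    push_cast
    rfl
  rw [h9] at h5
  push_cast at h6 h8
  have h10 : (2 : ℝ) ^ (2 * k) * ∑ s ∈ SS (2 * k), prob {A | E2 k s (view k κd T A)} ≤
      2 ^ (2 * k) * (2 * q + (2 * q + 1) * 2 ^ k) := by
    refine h5.trans ?_
    linarith
  exact le_of_mul_le_mul_left h10 (by positivity)

end Pool.Agent.H673R2.OneOne
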