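import Pool.Agent.H673R2.OneOne.CoreC

/-!
# The main estimate
-/

namespace Pool.Agent.H673R2.OneOne

open MeasureTheory Pool.Agent.NPC Pool.Agent.H628R3.RO

variable {k q N : ℕ} {κf κd : Cand} {T : List Bool → QA Bool}

theorem Hyp.prob_bad (H : Hyp k q N κf κd T) :
    prob (Bad k κf T) ≤ (6 * q + 3) * (1 / 2) ^ k := by
  have h1 : Bad k κf T ⊆ ⋃ s ∈ SS (2 * k), ({A : Oracle | rd (2 * k) κf.1 κf.2 A = s} ∩
      {A | E1 k s (view k κd T A) ∨ E2 k s (view k κd T A)}) := by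
    rintro A ⟨hA1, hA2⟩
    simp only [Set.mem_iUnion]
    have hs : rd (2 * k) κf.1 κf.2 A ∈ SS (2 * k) := by
      rw [mem_SS]
      exact length_rd _ _ _ _
    refine ⟨rd (2 * k) κf.1 κf.2 A, hs, rfl, ?_⟩
    have hg : ∀ b : Bool, ∀ s ∈ SS (2 * k), (view k κd T A).g b s = rd (4 * k) b.toNat s A :=
      fun b s h => view_g h A
    have h0 : (view k κd T A).t ((view k κd T A).g false (rd (2 * k) κf.1 κf.2 A)) = true := by
      rw [hg _ _ hs]
      exact hA1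
    rw [not_and_or] at hA2
    rcases hA2 with h | h
    · right
      refine ⟨h0, fun s' hs' h2 => h ⟨s', mem_SS.1 hs', ?_⟩⟩
      rw [hg _ _ hs'] at h2
      exact h2
    · left
      refine ⟨h0, fun v hv h2 => ?_⟩
      by_contra h3
      push Not at h3
      refine h ⟨v, mem_SS.1 hv, h2, fun s' hs' => ?_⟩
      have h4 := h3 s' (mem_SS.2 hs')
      rw [hg _ _ (mem_SS.2 hs'), hg _ _ (mem_SS.2 hs')] at h4
      exact h4
  have h2 : prob (Bad k κf T) ≤ ∑ s ∈ SS (2 * k), (1 / 2 : ℝ) ^ (2 * k) *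
      (prob {A | E1 k s (view k κd T A)} + prob {A | E2 k s (view k κd T A)}) := by
    refine (M2.prob_mono h1).trans ((prob_biUnion_le' _ _).trans ?_)
    apply Finset.sum_le_sum
    intro s hs
    rw [mem_SS] at hs
    rw [prob_pattern hs (finite_K N _) (fun x hx => hx.2) (H.loc_f fun w => E1 k s w ∨ E2 k s w)]
    exact mul_le_mul_of_nonneg_left (M2.prob_union_le _ _) (by positivity)
  refine h2.trans ?_
  rw [← Finset.mul_sum, Finset.sum_add_distrib]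
  have h3 := H.sum_E1
  have h4 := H.sum_E2
  have h5 : (1 / 2 : ℝ) ^ (2 * k) * ((6 * q + 3) * 2 ^ k) = (6 * q + 3) * (1 / 2) ^ k := by
    have h6 : (1 / 2 : ℝ) ^ (2 * k) = (1 / 2) ^ k * (1 / 2) ^ k := by
      rw [← pow_add]
      congr 1
      ring
    have h7 : (1 / 2 : ℝ) ^ k * 2 ^ k = 1 := by
      rw [← mul_pow]
      norm_num
    rw [h6]
    calc (1 / 2 : ℝ) ^ k * (1 / 2) ^ k * ((6 * q + 3) * 2 ^ k) =
        (1 / 2 : ℝ) ^ k * 2 ^ k * ((6 * q + 3) * (1 / 2) ^ k) := by ring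
      _ = _ := by rw [h7, one_mul]
  rw [← h5]
  apply mul_le_mul_of_nonneg_left _ (by positivity)
  have h6 : (1 : ℝ) ≤ 2 ^ k := one_le_pow₀ (by norm_num)
  have h7 : (0 : ℝ) ≤ q := Nat.cast_nonneg q
  nlinarith

theorem prob_two {κ κ' : Cand} (hne : κ ≠ κ') (l : ℕ) :
    prob {A : Oracle | rd l κ.1 κ.2 A = rd l κ'.1 κ'.2 A} ≤ (1 / 2) ^ l := by
  have h1 : {A : Oracle | rd l κ.1 κ.2 A = rd l κ'.1 κ'.2 A} ⊆
      ⋃ v ∈ SS l, ({A : Oracle | rd l κ.1 κ.2 A = v} ∩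
        ({A : Oracle | rd l κ'.1 κ'.2 A = v} ∩ Set.univ)) := by
    intro A hA
    simp only [Set.mem_iUnion]
    refine ⟨rd l κ.1 κ.2 A, mem_SS.2 (length_rd _ _ _ _), rfl, hA.symm, trivial⟩
  refine (M2.prob_mono h1).trans ((prob_biUnion_le' _ _).trans ?_)
  have h2 : ∀ v ∈ SS l, prob ({A : Oracle | rd l κ.1 κ.2 A = v} ∩
        ({A : Oracle | rd l κ'.1 κ'.2 A = v} ∩ Set.univ)) = (1 / 2) ^ l * (1 / 2) ^ l := by
    intro v hv
    rw [mem_SS] at hv
    rw [Set.inter_univ]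
    rw [prob_pattern hv (Finset.finite_toSet (spots l κ')) (fun x hx =>
      notMem_spots_of_ne hne.symm (Finset.mem_coe.1 hx)) (loc_rd l κ' v)]
    congr 1
    have h3 : {A : Oracle | rd l κ'.1 κ'.2 A = v} =
        {A : Oracle | ∀ x ∈ asks l κ'.1 κ'.2, A x = wr κ' v x} := by
      ext A
      exact rd_eq_iff hv A
    rw [h3, prob_agree _ (nodup_asks _ _ _)]
    simp [asks]
  rw [Finset.sum_congr rfl h2, Finset.sum_const, card_SS, nsmul_eq_mul]
  push_cast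
  rw [← mul_assoc, ← mul_pow]
  norm_num

theorem prob_col {κf : Cand} (hf : 2 ≤ κf.1) (k : ℕ) :
    prob (Col k κf) ≤ (1 / 2) ^ k := by
  have h1 : Col k κf ⊆ ⋃ s ∈ SS (2 * k), ({A : Oracle | rd (2 * k) κf.1 κf.2 A = s} ∩
      ⋃ s' ∈ SS (2 * k), {A : Oracle | rd (4 * k) 1 s' A = rd (4 * k) 0 s A}) := by
    rintro A ⟨s', hs', hA⟩
    simp only [Set.mem_iUnion]
    refine ⟨rd (2 * k) κf.1 κf.2 A, mem_SS.2 (length_rd _ _ _ _), rfl, ?_⟩
    simp only [Set.mem_iUnion]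
    exact ⟨s', mem_SS.2 hs', hA⟩
  have h2 : ∀ s ∈ SS (2 * k), prob ({A : Oracle | rd (2 * k) κf.1 κf.2 A = s} ∩
      ⋃ s' ∈ SS (2 * k), {A : Oracle | rd (4 * k) 1 s' A = rd (4 * k) 0 s A}) ≤
      (1 / 2) ^ (2 * k) * (2 ^ (2 * k) * (1 / 2) ^ (4 * k)) := by
    intro s hs
    rw [mem_SS] at hs
    rw [prob_pattern hs (finite_K (6 * k + 3) (fun x => x ∉ spots (2 * k) κf))
      (fun x hx => hx.2)]
    · apply mul_le_mul_of_nonneg_left _ (by positivity)
      refine (prob_biUnion_le' _ _).trans ?_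
      have h3 : ∀ s' ∈ SS (2 * k), prob {A : Oracle | rd (4 * k) 1 s' A = rd (4 * k) 0 s A} ≤
          (1 / 2) ^ (4 * k) := fun s' _ =>
        prob_two (κ := (1, s')) (κ' := (0, s)) (fun h => absurd (congrArg Prod.fst h) (by simp)) _
      refine (Finset.sum_le_sum h3).trans ?_
      rw [Finset.sum_const, card_SS, nsmul_eq_mul]
      push_cast
      exact le_refl _
    · intro A A' h
      have h4 : ∀ b : Bool, ∀ s : List Bool, s.length = 2 * k →
          rd (4 * k) b.toNat s A = rd (4 * k) b.toNat s A' := by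
        intro b s hs
        apply rd_congr
        intro x hx
        refine h x ⟨length_near hs hx, notMem_spots_of_ne ?_ hx⟩
        intro h5
        have h6 : b.toNat = κf.1 := congrArg Prod.fst h5
        have h7 : b.toNat ≤ 1 := Bool.toNat_le b
        omega
      simp only [Set.mem_iUnion, Set.mem_ofPred_eq]
      refine exists_congr fun s' => exists_congr fun hs' => ?_
      rw [mem_SS] at hs'
      have h8 : rd (4 * k) 1 s' A = rd (4 * k) 1 s' A' := h4 true s' hs'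
      have h9 : rd (4 * k) 0 s A = rd (4 * k) 0 s A' := h4 false s hs
      rw [h8, h9]
  refine (M2.prob_mono h1).trans ((prob_biUnion_le' _ _).trans ((Finset.sum_le_sum h2).trans ?_))
  rw [Finset.sum_const, card_SS, nsmul_eq_mul]
  push_cast
  have h3 : (1 / 2 : ℝ) ^ (4 * k) = (1 / 2) ^ (2 * k) * ((1 / 2) ^ k * (1 / 2) ^ k) := by
    rw [← pow_add, ← pow_add]
    congr 1
    ring
  have h4 : (2 : ℝ) ^ (2 * k) * (1 / 2) ^ (2 * k) = 1 := by
    rw [← mul_pow]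
    norm_num
  have h5 : (1 / 2 : ℝ) ^ k ≤ 1 := pow_le_one₀ (by norm_num) (by norm_num)
  rw [h3]
  calc (2 : ℝ) ^ (2 * k) * ((1 / 2) ^ (2 * k) * (2 ^ (2 * k) *
        ((1 / 2) ^ (2 * k) * ((1 / 2) ^ k * (1 / 2) ^ k)))) =
      ((2 : ℝ) ^ (2 * k) * (1 / 2) ^ (2 * k)) * ((2 : ℝ) ^ (2 * k) * (1 / 2) ^ (2 * k)) *
        ((1 / 2) ^ k * (1 / 2) ^ k) := by ring
    _ = (1 / 2) ^ k * (1 / 2) ^ k := by rw [h4, one_mul, one_mul]
    _ ≤ (1 / 2) ^ k * 1 := mul_le_mul_of_nonneg_left h5 (by positivity)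
    _ = (1 / 2) ^ k := mul_one _

end Pool.Agent.H673R2.OneOne
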