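import Pool.Agent.H628R3.RO.G1
import Pool.Agent.H628R3.RO.N1
import Pool.Agent.H628R3.RO.M1

/-!
# Definitions for the project: complete sets relative to a random oracle form a single 1-degree
-/

namespace Pool.Agent.H673R2.OneOne

open MeasureTheory Pool.Agent.NPC Pool.Agent.H628R3.RO

/-- the first `l` bits of the block `(c, w)` -/
def rd (l c : ℕ) (w : List Bool) (A : Oracle) : List Bool := (List.range l).map (fun i => A (pos c i w))

/-- A query algorithm: its value and the set of strings it asks about; both depend only on the
answers to these questions. -/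
structure QA (β : Type) where
  /-- the value -/
  val : Oracle → β
  /-- the questions asked -/
  qs : Oracle → Finset (List Bool)
  /-- both depend only on the answers -/
  loc : ∀ A A' : Oracle, (∀ x ∈ qs A, A' x = A x) → val A' = val A ∧ qs A' = qs A

/-- The bad event. Here `T v` is a query algorithm (does the value `v` lead to the given output?),
`κ` is the block with the secret seed, of length `2 * k`, `G s = rd (4 * k) 0 s` and
`G' s = rd (4 * k) 1 s`. -/
def Bad (k : ℕ) (κ : Cand) (T : List Bool → QA Bool) : Set Oracle :=
  {A | (T (rd (4 * k) 0 (rd (2 * k) κ.1 κ.2 A) A)).val A = true ∧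
    ¬ ((∃ s : List Bool, s.length = 2 * k ∧ (T (rd (4 * k) 1 s A)).val A = true) ∧
      ∃ v : List Bool, v.length = 4 * k ∧ (T v).val A = true ∧
        ∀ s : List Bool, s.length = 2 * k → rd (4 * k) 0 s A ≠ v ∧ rd (4 * k) 1 s A ≠ v)}

/-- The value of the secret seed is also a value of `G'`. -/
def Col (k : ℕ) (κ : Cand) : Set Oracle :=
  {A | ∃ s : List Bool, s.length = 2 * k ∧
    rd (4 * k) 1 s A = rd (4 * k) 0 (rd (2 * k) κ.1 κ.2 A) A}

/-- the parameter for inputs of length `n` -/
def kk (n : ℕ) : ℕ := 4 * n + 4

/-- the value of the secret seed of `z`; `c` gives the number of the block -/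
def gz (c : ℕ → ℕ) (A : Oracle) (z : List Bool) : List Bool :=
  rd (4 * kk z.length) 0 (rd (2 * kk z.length) (c z.length) z A) A

/-- the set of the pairs of a string `z` and a value of `G` (`b = 0`) or `G'` (`b = 1`) for this
length -/
def RG (A : Oracle) (b : ℕ) : Set (List Bool) :=
  {x | ∃ z r s : List Bool, x = pairBits z r ∧ s.length = 2 * kk z.length ∧
    rd (4 * kk z.length) b s A = r}

/-- the test language -/
def DL (A : Oracle) (L : Set (List Bool)) : Set (List Bool) :=
  (RG A 0 ∩ {x | (unpair x).1 ∈ L}) ∪ RG A 1

end Pool.Agent.H673R2.OneOne
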