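import Pool.Agent.H673R2.OneOne.Fp

/-!
# The theorem for general classes, and for `NP`
-/

namespace Pool.Agent.H673R2.OneOne

open MeasureTheory Pool.Agent.NPC Pool.Agent.H628R3.RO

/-- `L` reduces to `L'` relative to `A` by a one-one, length-increasing function computable in
polynomial time relative to `A` -/
def Red1 (A : Oracle) (L L' : Set (List Bool)) : Prop :=
  ∃ F : List Bool → List Bool, IsFP A F ∧ Function.Injective F ∧
    (∀ x, x.length < (F x).length) ∧ ∀ x, x ∈ L ↔ F x ∈ L'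

theorem general {A : Oracle} (hA : ∀ M : Alg, Good A M) (C : Set (List Bool) → Prop)
    (hI : ∀ L L', C L → IsNP A L' → C (L' ∩ L))
    (hU : ∀ L L', C L → IsNP A L' → C (L ∪ L'))
    (hR : ∀ L L', Red A L L' → C L' → C L)
    {B : Set (List Bool)} (hB : ∀ L, C L → Red A L B) {L : Set (List Bool)} (hL : C L) :
    Red1 A L B := by
  have h1 : C {z | (unpair z).1 ∈ L} := hR _ L ⟨fun z => (unpair z).1,
    IsFP.of_poly (Poly.fst poly_unpair), fun z => Iff.rfl⟩ hL
  have h2 : Red A {z | (unpair z).1 ∈ {z | (unpair z).1 ∈ L}} {z | (unpair z).1 ∈ L} :=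
    ⟨fun z => (unpair z).1, IsFP.of_poly (Poly.fst poly_unpair), fun z => Iff.rfl⟩
  have h3 : C (DL A {z | (unpair z).1 ∈ L}) :=
    hU _ _ (hI _ _ (hR _ _ h2 h1) (isNP_RG A 0)) (isNP_RG A 1)
  obtain ⟨F, ⟨M, hM⟩, hF⟩ := hB _ h3
  obtain ⟨n0, h4, h5, h6⟩ := patch (hA M) hM hF
  exact ⟨_, isFP_patched M ⟨M, hM⟩ n0, h6, h5, h4⟩

theorem np_case {A : Oracle} (hA : ∀ M : Alg, Good A M) {B : Set (List Bool)}
    (hB : NPHardRel A B) {L : Set (List Bool)} (hL : IsNP A L) : Red1 A L B :=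
  general hA (IsNP A) (fun _ _ h h' => IsNP.inter h' h)
    (fun _ _ h h' => IsNP.union h h') (fun _ _ h h' => IsNP.red h h') hB hL

end Pool.Agent.H673R2.OneOne
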