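import Pool.Agent.H673R2.OneOne.CoreD

/-!
# Almost surely, only finitely many bad events happen
-/

namespace Pool.Agent.H673R2.OneOne

open MeasureTheory Pool.Agent.NPC Pool.Agent.H628R3.RO

theorem mul_poly_le_two_pow' (P : Polynomial ℕ) :
    ∀ C : ℕ, ∃ n0, ∀ n ≥ n0, C * P.eval n ≤ 2 ^ n := by
  induction P using Polynomial.induction_on' with
  | add p q hp hq =>
    intro C
    obtain ⟨a, ha⟩ := hp (2 * C)
    obtain ⟨b, hb⟩ := hq (2 * C)
    refine ⟨max a b, fun n hn => ?_⟩
    have h1 := ha n (le_trans (le_max_left _ _) hn)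
    have h2 := hb n (le_trans (le_max_right _ _) hn)
    rw [Polynomial.eval_add]
    nlinarith
  | monomial k a =>
    intro C
    have h := tendsto_pow_const_div_const_pow_of_one_lt k (show (1 : ℝ) < 2 by norm_num)
    have h2 : ∀ᶠ n : ℕ in Filter.atTop, (n : ℝ) ^ k / 2 ^ n < 1 / ((C : ℝ) * a + 1) :=
      h.eventually (gt_mem_nhds (by positivity))
    obtain ⟨n0, hn0⟩ := Filter.eventually_atTop.mp h2
    refine ⟨n0, fun n hn => ?_⟩
    have h3 := hn0 n hn
    rw [div_lt_div_iff₀ (by positivity) (by positivity)] at h3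
    rw [Polynomial.eval_monomial]
    have h4 : ((C * (a * n ^ k) : ℕ) : ℝ) ≤ ((2 ^ n : ℕ) : ℝ) := by
      push_cast
      have : (0 : ℝ) ≤ (n : ℝ) ^ k := by positivity
      nlinarith
    exact_mod_cast h4

/-- a bound for the length of the questions asked by `M` -/
noncomputable def qb (M : Alg) : Polynomial ℕ := (QA.out_length M).choose

theorem qb_spec (M : Alg) (x : List Bool) (A : Oracle) :
    ∀ y ∈ (QA.out M x).qs A, y.length ≤ (qb M).eval x.length :=
  (QA.out_length M).choose_spec x A

/-- the number of the block with the secret seeds for inputs of length `n` -/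
noncomputable def cc (M : Alg) (n : ℕ) : ℕ := (qb M).eval (18 * n + 17) + 2

theorem cc_mono (M : Alg) {m n : ℕ} (h : m ≤ n) : cc M m ≤ cc M n := by
  unfold cc
  have := eval_mono (qb M) (show 18 * m + 17 ≤ 18 * n + 17 by omega)
  omega

/-- the output `h z'` as a query algorithm -/
noncomputable def Yh (M : Alg) (z : List Bool) : QA (Option (List Bool)) :=
  (QA.read (2 * kk z.length) (cc M z.length, z)).bind fun s =>
    (QA.read (4 * kk z.length) (0, s)).bind fun v => QA.out M (pairBits z v)

theorem Yh_val (M : Alg) (z : List Bool) (A : Oracle) :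
    (Yh M z).val A = M.out A (pairBits z (gz (cc M) A z)) :=
  QA.out_val M _ A

/-- the test whether the value `v` leads to the output `Y` -/
def TT (M : Alg) (z : List Bool) (Y : QA (Option (List Bool))) (v : List Bool) : QA Bool :=
  if v.length = 4 * kk z.length then
    (QA.out M (pairBits z v)).bind (fun o => Y.map (fun y => decide (o = y)))
  else QA.pure false

theorem TT_val (M : Alg) (z : List Bool) (Y : QA (Option (List Bool))) {v : List Bool}
    (hv : v.length = 4 * kk z.length) (A : Oracle) :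
    (TT M z Y v).val A = true ↔ M.out A (pairBits z v) = Y.val A := by
  unfold TT
  rw [if_pos hv]
  show decide ((QA.out M (pairBits z v)).val A = Y.val A) = true ↔ _
  rw [decide_eq_true_eq, QA.out_val]

theorem length_test {z v : List Bool} (hv : v.length = 4 * kk z.length) :
    (pairBits z v).length = 18 * z.length + 17 := by
  rw [length_pairBits, hv]
  unfold kk
  ring

theorem length_of_mem_spots {l : ℕ} {κ : Cand} {x : List Bool} (hx : x ∈ spots l κ) :
    κ.1 < x.length ∧ x.length < κ.1 + l + κ.2.length + 2 := by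
  obtain ⟨i, hi, rfl⟩ := M2.mem_spots.1 hx
  rw [length_pos]
  omega

/-- a bound for the lengths of all strings which matter -/
noncomputable def NN (M : Alg) (n : ℕ) : ℕ := cc M n + 10 * kk n + n + 10

theorem hyp_TT (M : Alg) (z : List Bool) (Y : QA (Option (List Bool))) (r : ℕ)
    (hY : ∀ A, (Y.qs A).card ≤ r) (hYl : ∀ A, ∀ x ∈ Y.qs A, x.length ≤ NN M z.length)
    (hYd : ∀ A, ∀ x ∈ Y.qs A, x ∉ spots (4 * kk z.length) (cc M z.length + 1, z))
    (hYf : ∀ A, ∀ x ∈ Y.qs A, x ∉ spots (2 * kk z.length) (cc M z.length, z)) :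
    Hyp (kk z.length) (M.p.eval (18 * z.length + 17) + r) (NN M z.length)
      (cc M z.length, z) (cc M z.length + 1, z) (TT M z Y) := by
  have hM : ∀ v : List Bool, v.length = 4 * kk z.length → ∀ A,
      ∀ x ∈ (QA.out M (pairBits z v)).qs A, x.length + 2 ≤ cc M z.length := by
    intro v hv A x hx
    have := qb_spec M _ A x hx
    rw [length_test hv] at this
    unfold cc
    omega
  have hqs : ∀ v A, ∀ x ∈ (TT M z Y v).qs A, v.length = 4 * kk z.length ∧
      (x ∈ (QA.out M (pairBits z v)).qs A ∨ x ∈ Y.qs A) := by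
    intro v A x hx
    unfold TT at hx
    split_ifs at hx with hv
    · exact ⟨hv, Finset.mem_union.1 hx⟩
    · exact absurd hx (Finset.notMem_empty x)
  refine ⟨?_, ?_, ?_, ?_, ?_, ?_, ?_, ?_, ?_⟩
  · intro v A
    unfold TT
    split_ifs with hv
    · refine (Finset.card_union_le _ _).trans (add_le_add ?_ (hY A))
      have := QA.out_card M (pairBits z v) A
      rwa [length_test hv] at this
    · exact Nat.zero_le _
  · intro v A x hx
    obtain ⟨hv, h | h⟩ := hqs v A x hx
    · have := hM v hv A x h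
      unfold NN
      omega
    · exact hYl A x h
  · intro v A x hx
    obtain ⟨hv, h | h⟩ := hqs v A x hx
    · intro h'
      have h1 := hM v hv A x h
      have h2 := (length_of_mem_spots h').1
      simp only at h2
      omega
    · exact hYd A x h
  · intro v A x hx
    obtain ⟨hv, h | h⟩ := hqs v A x hx
    · intro h'
      have h1 := hM v hv A x h
      have h2 := (length_of_mem_spots h').1
      simp only at h2
      omega
    · exact hYf A x h
  · show 2 ≤ cc M z.length + 1
    unfold cc
    omega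
  · show 2 ≤ cc M z.length
    unfold cc
    omega
  · intro h
    have := congrArg Prod.fst h
    simp at this
  · unfold NN
    omega
  · intro x hx
    have h2 := (length_of_mem_spots hx).2
    simp only at h2
    unfold NN
    omega

theorem hyp_const (M : Alg) (z y : List Bool) :
    Hyp (kk z.length) (M.p.eval (18 * z.length + 17) + 0) (NN M z.length)
      (cc M z.length, z) (cc M z.length + 1, z) (TT M z (QA.pure (some y))) := by
  apply hyp_TT
  · intro A
    exact Nat.zero_le _
  · intro A x hx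
    exact absurd hx (Finset.notMem_empty x)
  · intro A x hx
    exact absurd hx (Finset.notMem_empty x)
  · intro A x hx
    exact absurd hx (Finset.notMem_empty x)

theorem mem_qs_Yh {M : Alg} {z : List Bool} {A : Oracle} {x : List Bool}
    (hx : x ∈ (Yh M z).qs A) : x ∈ spots (2 * kk z.length) (cc M z.length, z) ∨
      (∃ s : List Bool, s.length = 2 * kk z.length ∧ x ∈ spots (4 * kk z.length) (0, s)) ∨
      x.length + 2 ≤ cc M z.length := by
  rcases Finset.mem_union.1 hx with hx | hx
  · exact Or.inl hx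
  rcases Finset.mem_union.1 hx with hx | hx
  · exact Or.inr (Or.inl ⟨_, length_rd _ _ _ A, hx⟩)
  · right
    right
    have := qb_spec M _ A x hx
    have hv : ((QA.read (4 * kk z.length) (0,
      (QA.read (2 * kk z.length) (cc M z.length, z)).val A)).val A).length = 4 * kk z.length :=
      length_rd _ _ _ A
    rw [length_test hv] at this
    unfold cc
    omega

theorem hyp_Yh (M : Alg) (z z' : List Bool) (hl : z'.length ≤ z.length) (hne : z' ≠ z) :
    Hyp (kk z.length) (M.p.eval (18 * z.length + 17) +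
      (6 * kk z.length + M.p.eval (18 * z.length + 17))) (NN M z.length)
      (cc M z.length, z) (cc M z.length + 1, z) (TT M z (Yh M z')) := by
  have hc := cc_mono M hl
  have hk : kk z'.length ≤ kk z.length := by
    unfold kk
    omega
  have hc2 : 2 ≤ cc M z.length := by
    unfold cc
    omega
  apply hyp_TT
  · intro A
    refine (Finset.card_union_le _ _).trans ?_
    have h1 : ((QA.read (2 * kk z'.length) (cc M z'.length, z')).qs A).card =
        2 * kk z'.length := M2.card_spots _ _
    refine le_trans (Nat.add_le_add_left (Finset.card_union_le _ _) _) ?_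
    have h2 : ∀ s : List Bool, ((QA.read (4 * kk z'.length) (0, s)).qs A).card =
        4 * kk z'.length := fun s => M2.card_spots _ _
    rw [h1, h2]
    have h3 := QA.out_card M (pairBits z' ((QA.read (4 * kk z'.length) (0,
      (QA.read (2 * kk z'.length) (cc M z'.length, z')).val A)).val A)) A
    have hv : ((QA.read (4 * kk z'.length) (0,
      (QA.read (2 * kk z'.length) (cc M z'.length, z')).val A)).val A).length =
        4 * kk z'.length := length_rd _ _ _ A
    rw [length_test hv] at h3
    have h4 := eval_mono M.p (show 18 * z'.length + 17 ≤ 18 * z.length + 17 by omega)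
    refine le_trans (Nat.add_le_add_left (Nat.add_le_add_left h3 _) _) ?_
    omega
  · intro A x hx
    unfold NN
    rcases mem_qs_Yh hx with h | ⟨s, hs, h⟩ | h
    · have h2 := (length_of_mem_spots h).2
      simp only at h2
      omega
    · have h2 := (length_of_mem_spots h).2
      simp only at h2
      omega
    · omega
  · intro A x hx
    rcases mem_qs_Yh hx with h | ⟨s, hs, h⟩ | h
    · exact notMem_spots_of_ne (fun h1 => hne (congrArg Prod.snd h1)) h
    · exact notMem_spots_of_ne (fun h1 => by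
        have := congrArg Prod.fst h1
        simp only at this
        omega) h
    · intro h'
      have h2 := (length_of_mem_spots h').1
      simp only at h2
      omega
  · intro A x hx
    rcases mem_qs_Yh hx with h | ⟨s, hs, h⟩ | h
    · exact notMem_spots_of_ne (fun h1 => hne (congrArg Prod.snd h1)) h
    · exact notMem_spots_of_ne (fun h1 => by
        have := congrArg Prod.fst h1
        simp only at this
        omega) h
    · intro h'
      have h2 := (length_of_mem_spots h').1
      simp only at h2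
      omega

/-- the number of questions -/
noncomputable def qq (M : Alg) (n : ℕ) : ℕ :=
  2 * M.p.eval (18 * n + 17) + 6 * kk n

theorem prob_bad_const (M : Alg) (z y : List Bool) :
    prob (Bad (kk z.length) (cc M z.length, z) (TT M z (QA.pure (some y)))) ≤
      (6 * qq M z.length + 3 : ℕ) * (1 / 2) ^ kk z.length := by
  refine (hyp_const M z y).prob_bad.trans ?_
  apply mul_le_mul_of_nonneg_right _ (by positivity)
  have : M.p.eval (18 * z.length + 17) + 0 ≤ qq M z.length := by
    unfold qq
    omega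
  have h2 : ((M.p.eval (18 * z.length + 17) + 0 : ℕ) : ℝ) ≤ qq M z.length := by
    exact_mod_cast this
  push_cast at h2 ⊢
  linarith

theorem prob_bad_Yh (M : Alg) (z z' : List Bool) (hl : z'.length ≤ z.length) (hne : z' ≠ z) :
    prob (Bad (kk z.length) (cc M z.length, z) (TT M z (Yh M z'))) ≤
      (6 * qq M z.length + 3 : ℕ) * (1 / 2) ^ kk z.length := by
  refine (hyp_Yh M z z' hl hne).prob_bad.trans ?_
  apply mul_le_mul_of_nonneg_right _ (by positivity)
  have : M.p.eval (18 * z.length + 17) +
      (6 * kk z.length + M.p.eval (18 * z.length + 17)) ≤ qq M z.length := by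
    unfold qq
    omega
  have h2 : ((M.p.eval (18 * z.length + 17) +
      (6 * kk z.length + M.p.eval (18 * z.length + 17)) : ℕ) : ℝ) ≤ qq M z.length := by
    exact_mod_cast this
  push_cast at h2 ⊢
  linarith

/-- the bad events for inputs of length `n` -/
noncomputable def BB (M : Alg) (n : ℕ) : Set Oracle :=
  ⋃ z ∈ SS n, (Col (kk z.length) (cc M z.length, z) ∪
    ((⋃ y ∈ (strs n).toFinset, Bad (kk z.length) (cc M z.length, z) (TT M z (QA.pure (some y)))) ∪
    ⋃ z' ∈ (strs n).toFinset.erase z,
      Bad (kk z.length) (cc M z.length, z) (TT M z (Yh M z'))))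

theorem card_strs_le (n : ℕ) : (strs n).toFinset.card ≤ 2 ^ (n + 1) := by
  rw [List.toFinset_card_of_nodup (nodup_strs n)]
  have := length_strs n
  omega

theorem prob_BB (M : Alg) (n : ℕ) :
    prob (BB M n) ≤ (6 * qq M n + 4 : ℕ) * (1 / 2) ^ n * (1 / 2) ^ n := by
  have h1 : ∀ z ∈ SS n, prob (Col (kk z.length) (cc M z.length, z) ∪
    ((⋃ y ∈ (strs n).toFinset, Bad (kk z.length) (cc M z.length, z) (TT M z (QA.pure (some y)))) ∪
    ⋃ z' ∈ (strs n).toFinset.erase z,
      Bad (kk z.length) (cc M z.length, z) (TT M z (Yh M z')))) ≤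
      (6 * qq M n + 4 : ℕ) * (1 / 2) ^ kk n * 2 ^ (n + 3) := by
    intro z hz
    rw [mem_SS] at hz
    have hc : 2 ≤ cc M z.length := by
      unfold cc
      omega
    have h2 := prob_col (κf := (cc M z.length, z)) hc (kk z.length)
    have h3 : prob (⋃ y ∈ (strs n).toFinset,
        Bad (kk z.length) (cc M z.length, z) (TT M z (QA.pure (some y)))) ≤
        2 ^ (n + 1) * ((6 * qq M n + 3 : ℕ) * (1 / 2) ^ kk n) := by
      refine (prob_biUnion_le' _ _).trans ?_
      refine (Finset.sum_le_sum fun y _ => prob_bad_const M z y).trans ?_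
      rw [Finset.sum_const, nsmul_eq_mul, hz]
      apply mul_le_mul_of_nonneg_right _ (by positivity)
      exact_mod_cast card_strs_le n
    have h4 : prob (⋃ z' ∈ (strs n).toFinset.erase z,
        Bad (kk z.length) (cc M z.length, z) (TT M z (Yh M z'))) ≤
        2 ^ (n + 1) * ((6 * qq M n + 3 : ℕ) * (1 / 2) ^ kk n) := by
      refine (prob_biUnion_le' _ _).trans ?_
      refine (Finset.sum_le_sum fun z' hz' => prob_bad_Yh M z z' ?_ ?_).trans ?_
      · have := (Finset.mem_erase.1 hz').2
        rw [List.mem_toFinset, mem_strs] at this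
        omega
      · exact (Finset.mem_erase.1 hz').1
      rw [Finset.sum_const, nsmul_eq_mul, hz]
      apply mul_le_mul_of_nonneg_right _ (by positivity)
      exact_mod_cast (Finset.card_erase_le.trans (card_strs_le n))
    refine (M2.prob_union_le _ _).trans (le_trans (add_le_add h2
      ((M2.prob_union_le _ _).trans (add_le_add h3 h4))) ?_)
    rw [hz]
    have h5 : (1 : ℝ) ≤ 2 ^ (n + 1) := one_le_pow₀ (by norm_num)
    have h6 : (0 : ℝ) ≤ (1 / 2 : ℝ) ^ kk n := by positivity
    have h7 : (2 : ℝ) ^ (n + 3) = 4 * 2 ^ (n + 1) := by ring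
    rw [h7]
    push_cast
    have h8 : (0 : ℝ) ≤ qq M n := Nat.cast_nonneg _
    have h9 : (1 / 2 : ℝ) ^ kk n ≤ 2 ^ (n + 1) * (1 / 2 : ℝ) ^ kk n :=
      le_mul_of_one_le_left h6 h5
    have h10 : (0 : ℝ) ≤ 2 ^ (n + 1) * (1 / 2 : ℝ) ^ kk n := by positivity
    have h11 : (0 : ℝ) ≤ qq M n * (2 ^ (n + 1) * (1 / 2 : ℝ) ^ kk n) := by positivity
    nlinarith
  unfold BB
  refine (prob_biUnion_le' _ _).trans ((Finset.sum_le_sum h1).trans ?_)
  rw [Finset.sum_const, card_SS, nsmul_eq_mul]
  push_cast
  have h12 : (2 : ℝ) ^ n * ((6 * (qq M n : ℝ) + 4) * (1 / 2) ^ kk n * 2 ^ (n + 3)) =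
      (6 * (qq M n : ℝ) + 4) * (1 / 2) ^ n * (1 / 2) ^ n * (1 / 2) := by
    unfold kk
    have h13 : (1 / 2 : ℝ) ^ (4 * n + 4) = ((1 / 2) ^ n * (1 / 2) ^ n) * ((1 / 2) ^ n *
      (1 / 2) ^ n) * (1 / 16) := by
      rw [pow_add, show 4 * n = n + n + (n + n) by ring, pow_add, pow_add]
      norm_num
    have h14 : (2 : ℝ) ^ n * (1 / 2) ^ n = 1 := by
      rw [← mul_pow]
      norm_num
    have h15 : (2 : ℝ) ^ (n + 3) = 8 * 2 ^ n := by ring
    rw [h13, h15]
    calc (2 : ℝ) ^ n * ((6 * (qq M n : ℝ) + 4) * (((1 / 2) ^ n * (1 / 2) ^ n) * ((1 / 2) ^ n *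
      (1 / 2) ^ n) * (1 / 16)) * (8 * 2 ^ n)) = ((2 : ℝ) ^ n * (1 / 2) ^ n) *
        ((2 : ℝ) ^ n * (1 / 2) ^ n) * ((6 * (qq M n : ℝ) + 4) * (1 / 2) ^ n * (1 / 2) ^ n *
          (1 / 2)) := by ring
      _ = _ := by rw [h14, one_mul, one_mul]
  rw [h12]
  have h16 : (0 : ℝ) ≤ (6 * (qq M n : ℝ) + 4) * (1 / 2) ^ n * (1 / 2) ^ n := by positivity
  linarith

theorem qq_poly (M : Alg) : ∃ n0, ∀ n ≥ n0, 6 * qq M n + 4 ≤ 2 ^ n := by
  obtain ⟨n0, h⟩ := mul_poly_le_two_pow' (6 * (2 * M.p.comp (18 * Polynomial.X + 17) +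
    6 * (4 * Polynomial.X + 4)) + 4 : Polynomial ℕ) 1
  refine ⟨n0, fun n hn => ?_⟩
  have h1 := h n hn
  simp only [Polynomial.eval_add, Polynomial.eval_mul, Polynomial.eval_comp, Polynomial.eval_X,
    Polynomial.eval_ofNat, one_mul] at h1
  unfold qq kk
  exact h1

theorem freq_zero (M : Alg) : randomOracle {A | ∃ᶠ n in Filter.atTop, A ∈ BB M n} = 0 := by
  obtain ⟨n0, h0⟩ := qq_poly M
  apply borel_cantelli (BB M) (C := n0 + 2)
  intro n
  have h1 : ∀ i, prob (BB M i) ≤ (if i < n0 then 1 else 0) + (1 / 2) ^ i := by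
    intro i
    split_ifs with hi
    · have h2 : prob (BB M i) ≤ 1 := measureReal_le_one
      have h3 : (0 : ℝ) ≤ (1 / 2) ^ i := by positivity
      linarith
    · refine (prob_BB M i).trans ?_
      rw [zero_add]
      have h2 : ((6 * qq M i + 4 : ℕ) : ℝ) ≤ 2 ^ i := by exact_mod_cast h0 i (by omega)
      have h3 : (0 : ℝ) ≤ (1 / 2) ^ i := by positivity
      have h4 : (2 : ℝ) ^ i * (1 / 2) ^ i = 1 := by
        rw [← mul_pow]
        norm_num
      calc ((6 * qq M i + 4 : ℕ) : ℝ) * (1 / 2) ^ i * (1 / 2) ^ i ≤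
          2 ^ i * (1 / 2) ^ i * (1 / 2) ^ i := by gcongr
        _ = (1 / 2) ^ i := by rw [h4, one_mul]
  refine (Finset.sum_le_sum fun i _ => h1 i).trans ?_
  rw [Finset.sum_add_distrib]
  have h2 : ∑ i ∈ Finset.range n, (if i < n0 then (1 : ℝ) else 0) ≤ n0 := by
    rw [← Finset.sum_filter, Finset.sum_const, nsmul_eq_mul, mul_one]
    have : ((Finset.range n).filter (fun i => i < n0)).card ≤ (Finset.range n0).card := by
      apply Finset.card_le_card
      intro i hi
      exact Finset.mem_range.2 (Finset.mem_filter.1 hi).2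
    rw [Finset.card_range] at this
    exact_mod_cast this
  have h3 : ∑ i ∈ Finset.range n, (1 / 2 : ℝ) ^ i ≤ 2 := by
    have := geom_sum_eq (show (1 / 2 : ℝ) ≠ 1 by norm_num) n
    rw [this]
    have h5 : (0 : ℝ) ≤ (1 / 2) ^ n := by positivity
    rw [div_le_iff_of_neg (by norm_num)]
    linarith
  linarith

/-- Almost surely, for every algorithm only finitely many bad events happen. -/
theorem ae_good : ∀ᵐ A ∂randomOracle, ∀ M : Alg, ∃ n0, ∀ z : List Bool, n0 ≤ z.length →
    A ∉ Col (kk z.length) (cc M z.length, z) ∧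
    (∀ y : List Bool, y.length ≤ z.length →
      A ∉ Bad (kk z.length) (cc M z.length, z) (TT M z (QA.pure (some y)))) ∧
    ∀ z' : List Bool, z'.length ≤ z.length → z' ≠ z →
      A ∉ Bad (kk z.length) (cc M z.length, z) (TT M z (Yh M z')) := by
  rw [ae_all_iff]
  intro M
  have h1 : ∀ᵐ A ∂randomOracle, ¬ ∃ᶠ n in Filter.atTop, A ∈ BB M n := by
    rw [ae_iff]
    simp only [not_not]
    exact freq_zero M
  filter_upwards [h1] with A hA
  rw [Filter.not_frequently, Filter.eventually_atTop] at hA
  obtain ⟨n0, h0⟩ := hA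
  refine ⟨n0, fun z hz => ?_⟩
  have h2 := h0 z.length hz
  unfold BB at h2
  simp only [Set.mem_iUnion, Set.mem_union, not_exists, not_or] at h2
  obtain ⟨h3, h4, h5⟩ := h2 z (mem_SS.2 rfl)
  refine ⟨h3, fun y hy => h4 y ?_, fun z' hz' hne => h5 z' ?_⟩
  · rw [List.mem_toFinset, mem_strs]
    exact hy
  · rw [Finset.mem_erase, List.mem_toFinset, mem_strs]
    exact ⟨hne, hz'⟩

end Pool.Agent.H673R2.OneOne
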