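import Pool.Agent.H673R2.OneOne.MainA
import Pool.Agent.H628R3.RO.G1

/-!
# The reduction is one-one and length-increasing on long strings
-/

namespace Pool.Agent.H673R2.OneOne

open MeasureTheory Pool.Agent.NPC Pool.Agent.H628R3.RO

/-- the oracle has only finitely many bad events for `M` -/
def Good (A : Oracle) (M : Alg) : Prop := ∃ n0, ∀ z : List Bool, n0 ≤ z.length →
    A ∉ Col (kk z.length) (cc M z.length, z) ∧
    (∀ y : List Bool, y.length ≤ z.length →
      A ∉ Bad (kk z.length) (cc M z.length, z) (TT M z (QA.pure (some y)))) ∧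
    ∀ z' : List Bool, z'.length ≤ z.length → z' ≠ z →
      A ∉ Bad (kk z.length) (cc M z.length, z) (TT M z (Yh M z'))

theorem ae_Good : ∀ᵐ A ∂randomOracle, ∀ M : Alg, Good A M := ae_good

theorem mem_RG {A : Oracle} {b : ℕ} {z r : List Bool} :
    pairBits z r ∈ RG A b ↔ ∃ s : List Bool, s.length = 2 * kk z.length ∧
      rd (4 * kk z.length) b s A = r := by
  constructor
  · rintro ⟨z', r', s, h1, h2, h3⟩
    have h4 := congrArg unpair h1
    rw [unpair_pairBits, unpair_pairBits, Prod.mk.injEq] at h4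
    obtain ⟨rfl, rfl⟩ := h4
    exact ⟨s, h2, h3⟩
  · rintro ⟨s, h2, h3⟩
    exact ⟨z, r, s, rfl, h2, h3⟩

theorem mem_DL {A : Oracle} {L : Set (List Bool)} {z r : List Bool} :
    pairBits z r ∈ DL A L ↔ (pairBits z r ∈ RG A 0 ∧ z ∈ L) ∨ pairBits z r ∈ RG A 1 := by
  unfold DL
  rw [Set.mem_union, Set.mem_inter_iff]
  simp only [Set.mem_ofPred_eq, unpair_pairBits]

/-- the new reduction -/
noncomputable def hz (M : Alg) (A : Oracle) (F : List Bool → List Bool) (z : List Bool) :
    List Bool := F (pairBits z (gz (cc M) A z))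

theorem length_gz (c : ℕ → ℕ) (A : Oracle) (z : List Bool) :
    (gz c A z).length = 4 * kk z.length := length_rd _ _ _ _

theorem not_bad {A : Oracle} {M : Alg} {F : List Bool → List Bool}
    (hF : ∀ x, M.out A x = some (F x)) {L B : Set (List Bool)}
    (hR : ∀ x, x ∈ DL A L ↔ F x ∈ B) {z : List Bool} {Y : QA (Option (List Bool))}
    {y : List Bool} (hY : Y.val A = some y)
    (hB : A ∉ Bad (kk z.length) (cc M z.length, z) (TT M z Y)) : hz M A F z ≠ y := by
  intro hzy
  have h1 : ∀ v : List Bool, v.length = 4 * kk z.length →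
      ((TT M z Y v).val A = true ↔ F (pairBits z v) = y) := by
    intro v hv
    rw [TT_val M z Y hv, hF, hY, Option.some.injEq]
  apply hB
  refine ⟨?_, ?_⟩
  · show (TT M z Y (gz (cc M) A z)).val A = true
    rw [h1 _ (length_gz _ _ _)]
    exact hzy
  · rintro ⟨⟨s, hs, h2⟩, v, hv, h3, h4⟩
    rw [h1 _ (length_rd _ _ _ _)] at h2
    rw [h1 _ hv] at h3
    have h5 : y ∈ B := by
      rw [← h2, ← hR, mem_DL]
      exact Or.inr (mem_RG.2 ⟨s, hs, rfl⟩)
    rw [← h3, ← hR, mem_DL] at h5
    rcases h5 with ⟨h5, -⟩ | h5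
    · obtain ⟨s', hs', h6⟩ := mem_RG.1 h5
      exact (h4 s' hs').1 h6
    · obtain ⟨s', hs', h6⟩ := mem_RG.1 h5
      exact (h4 s' hs').2 h6

theorem good_spec {A : Oracle} {M : Alg} (hG : Good A M) {F : List Bool → List Bool}
    (hF : ∀ x, M.out A x = some (F x)) {L B : Set (List Bool)}
    (hR : ∀ x, x ∈ DL A L ↔ F x ∈ B) : ∃ n0, ∀ z : List Bool, n0 ≤ z.length →
      (z ∈ L ↔ hz M A F z ∈ B) ∧ z.length < (hz M A F z).length ∧
      ∀ z' : List Bool, z'.length ≤ z.length → z' ≠ z → hz M A F z' ≠ hz M A F z := by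
  obtain ⟨n0, h0⟩ := hG
  refine ⟨n0, fun z hz' => ?_⟩
  obtain ⟨h1, h2, h3⟩ := h0 z hz'
  refine ⟨?_, ?_, ?_⟩
  · unfold hz
    rw [← hR, mem_DL]
    have h4 : pairBits z (gz (cc M) A z) ∈ RG A 0 :=
      mem_RG.2 ⟨_, length_rd _ _ _ A, rfl⟩
    have h5 : pairBits z (gz (cc M) A z) ∉ RG A 1 := by
      intro h
      obtain ⟨s, hs, h6⟩ := mem_RG.1 h
      exact h1 ⟨s, hs, h6⟩
    tauto
  · by_contra hlt
    push Not at hlt
    exact not_bad hF hR (Y := QA.pure (some (hz M A F z))) rfl (h2 _ hlt) rfl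
  · intro z' hl hne heq
    refine not_bad hF hR (Y := Yh M z') (y := hz M A F z') ?_ (h3 z' hl hne) heq.symm
    rw [Yh_val, hF]
    rfl

theorem pairBits_inj' {x x' w w' : List Bool} (h : pairBits x w = pairBits x' w') :
    x = x' ∧ w = w' := by
  have := congrArg unpair h
  rwa [unpair_pairBits, unpair_pairBits, Prod.mk.injEq] at this

/-- from a reduction which is good on long strings to one which is good everywhere -/
theorem patch {A : Oracle} {M : Alg} (hG : Good A M) {F : List Bool → List Bool}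
    (hF : ∀ x, M.out A x = some (F x)) {L B : Set (List Bool)}
    (hR : ∀ x, x ∈ DL A {z | (unpair z).1 ∈ L} ↔ F x ∈ B) : ∃ n0,
      let f : List Bool → List Bool := fun x => hz M A F (pairBits x (List.replicate n0 true))
      (∀ x, x ∈ L ↔ f x ∈ B) ∧ (∀ x, x.length < (f x).length) ∧ Function.Injective f := by
  obtain ⟨n0, h0⟩ := good_spec hG hF hR
  have hl : ∀ x : List Bool, n0 ≤ (pairBits x (List.replicate n0 true)).length := by
    intro x
    rw [length_pairBits, List.length_replicate]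
    omega
  refine ⟨n0, ?_⟩
  intro f
  refine ⟨?_, ?_, ?_⟩
  · intro x
    have h1 := (h0 _ (hl x)).1
    rw [← h1]
    simp only [Set.mem_ofPred_eq, unpair_pairBits]
  · intro x
    have h1 := (h0 _ (hl x)).2.1
    rw [length_pairBits] at h1
    show x.length < (hz M A F (pairBits x (List.replicate n0 true))).length
    omega
  · intro x x' h
    by_contra hne
    have h1 : pairBits x (List.replicate n0 true) ≠ pairBits x' (List.replicate n0 true) :=
      fun h2 => hne (pairBits_inj' h2).1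
    rcases le_total (pairBits x (List.replicate n0 true)).length
      (pairBits x' (List.replicate n0 true)).length with h2 | h2
    · exact (h0 _ (hl x')).2.2 _ h2 h1 h
    · exact (h0 _ (hl x)).2.2 _ h2 h1.symm h.symm

end Pool.Agent.H673R2.OneOne
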