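import Pool.Agent.H673R2.OneOne.Defs
import Pool.Agent.H628R3.RO.M2

/-!
# Permuting the strings of a random oracle
-/

namespace Pool.Agent.H673R2.OneOne

open MeasureTheory Pool.Agent.NPC Pool.Agent.H628R3.RO

theorem measurable_perm (π : Equiv.Perm (List Bool)) :
    Measurable (fun A : Oracle => (fun x => A (π x) : Oracle)) :=
  measurable_pi_lambda _ fun x => measurable_pi_apply (π x)

theorem map_perm (π : Equiv.Perm (List Bool)) :
    randomOracle.map (fun A : Oracle => (fun x => A (π x) : Oracle)) = randomOracle := by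
  have h := Measure.infinitePi_map_piCongrLeft (μ := fun _ : List Bool => coin) π.symm
  have h1 : (MeasurableEquiv.piCongrLeft (fun _ : List Bool => Bool) π.symm :
      Oracle → Oracle) = fun A : Oracle => (fun x => A (π x) : Oracle) := by
    funext A x
    obtain ⟨y, rfl⟩ := π.symm.surjective x
    rw [MeasurableEquiv.coe_piCongrLeft, Equiv.piCongrLeft_apply_apply, Equiv.apply_symm_apply]
  rw [h1] at h
  exact h

theorem prob_perm (π : Equiv.Perm (List Bool)) {S : Set Oracle} (hS : MeasurableSet S) :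
    prob {A : Oracle | (fun x => A (π x) : Oracle) ∈ S} = prob S := by
  unfold prob
  conv_rhs => rw [← map_perm π]
  rw [map_measureReal_apply (measurable_perm π) hS]
  rfl

/-- the permutation which exchanges the blocks `κ` and `κ'` -/
noncomputable def swf (l : ℕ) (κ κ' : Cand) (x : List Bool) : List Bool :=
  open Classical in
  if h : ∃ i < l, pos κ.1 i κ.2 = x then pos κ'.1 h.choose κ'.2
  else if h : ∃ i < l, pos κ'.1 i κ'.2 = x then pos κ.1 h.choose κ.2 else x

theorem swf_left (l : ℕ) (κ κ' : Cand) {i : ℕ} (hi : i < l) :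
    swf l κ κ' (pos κ.1 i κ.2) = pos κ'.1 i κ'.2 := by
  have h : ∃ j < l, pos κ.1 j κ.2 = pos κ.1 i κ.2 := ⟨i, hi, rfl⟩
  unfold swf
  rw [dif_pos h]
  rw [(pos_inj h.choose_spec.2).2.1]

theorem swf_right (l : ℕ) (κ κ' : Cand) {i : ℕ} (hi : i < l) :
    swf l κ κ' (pos κ'.1 i κ'.2) = pos κ.1 i κ.2 := by
  by_cases hκ : κ = κ'
  · subst hκ
    exact swf_left l κ κ hi
  have h : ∃ j < l, pos κ'.1 j κ'.2 = pos κ'.1 i κ'.2 := ⟨i, hi, rfl⟩
  have h' : ¬ ∃ j < l, pos κ.1 j κ.2 = pos κ'.1 i κ'.2 := by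
    rintro ⟨j, _, h1⟩
    obtain ⟨h2, _, h3⟩ := pos_inj h1
    exact hκ (Prod.ext h2 h3)
  unfold swf
  rw [dif_neg h', dif_pos h]
  rw [(pos_inj h.choose_spec.2).2.1]

theorem swf_other (l : ℕ) (κ κ' : Cand) {x : List Bool} (h : x ∉ spots l κ)
    (h' : x ∉ spots l κ') : swf l κ κ' x = x := by
  rw [M2.mem_spots] at h h'
  unfold swf
  rw [dif_neg h, dif_neg h']

theorem swf_swf (l : ℕ) (κ κ' : Cand) (x : List Bool) : swf l κ κ' (swf l κ κ' x) = x := by
  by_cases h : x ∈ spots l κ
  · obtain ⟨i, hi, rfl⟩ := M2.mem_spots.1 h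
    rw [swf_left l κ κ' hi, swf_right l κ κ' hi]
  by_cases h' : x ∈ spots l κ'
  · obtain ⟨i, hi, rfl⟩ := M2.mem_spots.1 h'
    rw [swf_right l κ κ' hi, swf_left l κ κ' hi]
  rw [swf_other l κ κ' h h', swf_other l κ κ' h h']

/-- exchange the contents of the blocks `κ` and `κ'` -/
noncomputable def act (l : ℕ) (κ κ' : Cand) (A : Oracle) : Oracle := fun x => A (swf l κ κ' x)

theorem prob_act (l : ℕ) (κ κ' : Cand) {S : Set Oracle} (hS : MeasurableSet S) :
    prob {A : Oracle | act l κ κ' A ∈ S} = prob S :=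
  prob_perm ⟨swf l κ κ', swf l κ κ', swf_swf l κ κ', swf_swf l κ κ'⟩ hS

theorem measurableSet_act (l : ℕ) (κ κ' : Cand) {S : Set Oracle} (hS : MeasurableSet S) :
    MeasurableSet {A : Oracle | act l κ κ' A ∈ S} :=
  measurable_perm ⟨swf l κ κ', swf l κ κ', swf_swf l κ κ', swf_swf l κ κ'⟩ hS

theorem act_other (l : ℕ) (κ κ' : Cand) (A : Oracle) {x : List Bool} (h : x ∉ spots l κ)
    (h' : x ∉ spots l κ') : act l κ κ' A x = A x := by
  unfold act
  rw [swf_other l κ κ' h h']

theorem rd_act_left (l : ℕ) (κ κ' : Cand) (A : Oracle) :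
    rd l κ.1 κ.2 (act l κ κ' A) = rd l κ'.1 κ'.2 A := by
  apply List.map_congr_left
  intro i hi
  show A (swf l κ κ' _) = _
  rw [swf_left l κ κ' (List.mem_range.1 hi)]

theorem rd_act_right (l : ℕ) (κ κ' : Cand) (A : Oracle) :
    rd l κ'.1 κ'.2 (act l κ κ' A) = rd l κ.1 κ.2 A := by
  apply List.map_congr_left
  intro i hi
  show A (swf l κ κ' _) = _
  rw [swf_right l κ κ' (List.mem_range.1 hi)]

theorem rd_act_other (l l' : ℕ) (κ κ' κ'' : Cand) (A : Oracle) (h : κ'' ≠ κ) (h' : κ'' ≠ κ') :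
    rd l' κ''.1 κ''.2 (act l κ κ' A) = rd l' κ''.1 κ''.2 A := by
  apply List.map_congr_left
  intro i hi
  apply act_other
  · rw [M2.mem_spots]
    rintro ⟨j, _, h1⟩
    obtain ⟨h2, _, h3⟩ := pos_inj h1
    exact h (Prod.ext h2 h3).symm
  · rw [M2.mem_spots]
    rintro ⟨j, _, h1⟩
    obtain ⟨h2, _, h3⟩ := pos_inj h1
    exact h' (Prod.ext h2 h3).symm

theorem length_rd (l c : ℕ) (w : List Bool) (A : Oracle) : (rd l c w A).length = l := by
  simp [rd]

theorem nodup_asks (l c : ℕ) (w : List Bool) : (asks l c w).Nodup := by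
  apply List.Nodup.map _ List.nodup_range
  intro i j h
  exact (pos_inj h).2.1

/-- the oracle with the given contents of the block `κ` -/
noncomputable def wr (κ : Cand) (u : List Bool) (x : List Bool) : Bool :=
  open Classical in if h : ∃ i, pos κ.1 i κ.2 = x then u.getD h.choose false else false

theorem wr_pos (κ : Cand) (u : List Bool) (i : ℕ) : wr κ u (pos κ.1 i κ.2) = u.getD i false := by
  have h : ∃ j, pos κ.1 j κ.2 = pos κ.1 i κ.2 := ⟨i, rfl⟩
  unfold wr
  rw [dif_pos h]
  rw [(pos_inj h.choose_spec).2.1]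

theorem rd_eq_iff {l : ℕ} {κ : Cand} {u : List Bool} (hu : u.length = l) (A : Oracle) :
    rd l κ.1 κ.2 A = u ↔ ∀ x ∈ asks l κ.1 κ.2, A x = wr κ u x := by
  unfold asks
  constructor
  · rintro h x hx
    obtain ⟨i, hi, rfl⟩ := List.mem_map.1 hx
    rw [wr_pos]
    rw [List.mem_range] at hi
    have h1 : (rd l κ.1 κ.2 A).getD i false = A (pos κ.1 i κ.2) := by
      simp [rd, List.getD_eq_getElem?_getD, hi]
    rw [← h1, h]
  · intro h
    apply List.ext_getElem
    · rw [length_rd, hu]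
    · intro i h1 h2
      have h3 := h (pos κ.1 i κ.2) (List.mem_map.2 ⟨i, List.mem_range.2 (by omega), rfl⟩)
      rw [wr_pos, List.getD_eq_getElem _ _ h2] at h3
      simp only [rd, List.getElem_map, List.getElem_range]
      exact h3

theorem mem_asks {l : ℕ} {κ : Cand} {x : List Bool} : x ∈ asks l κ.1 κ.2 ↔ x ∈ spots l κ := by
  simp [asks, spots]

theorem loc_rd (l : ℕ) (κ : Cand) (u : List Bool) :
    Loc (spots l κ : Set (List Bool)) {A : Oracle | rd l κ.1 κ.2 A = u} := by
  intro A A' h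
  have : rd l κ.1 κ.2 A = rd l κ.1 κ.2 A' := by
    apply List.map_congr_left
    intro i hi
    exact h _ (Finset.mem_coe.2 (M2.mem_spots.2 ⟨i, List.mem_range.1 hi, rfl⟩))
  simp only [Set.mem_ofPred_eq, this]

/-- the content of a block is uniformly distributed and independent of everything else -/
theorem prob_pattern {l : ℕ} {κ : Cand} {u : List Bool} (hu : u.length = l)
    {K : Set (List Bool)} (hK : K.Finite) (hd : ∀ x ∈ K, x ∉ spots l κ) {S : Set Oracle}
    (hS : Loc K S) : prob ({A : Oracle | rd l κ.1 κ.2 A = u} ∩ S) = (1 / 2) ^ l * prob S := by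
  rw [prob_inter_of_disjoint (Finset.finite_toSet _) hK ?_ (loc_rd l κ u) hS]
  · congr 1
    have h1 : {A : Oracle | rd l κ.1 κ.2 A = u} =
        {A : Oracle | ∀ x ∈ asks l κ.1 κ.2, A x = wr κ u x} := by
      ext A
      exact rd_eq_iff hu A
    rw [h1, prob_agree _ (nodup_asks _ _ _)]
    simp [asks]
  · rw [Set.disjoint_left]
    intro x hx hx'
    exact hd x hx' (Finset.mem_coe.1 hx)

theorem prob_biUnion_le' {ι : Type*} (h : Finset ι) (f : ι → Set Oracle) :
    prob (⋃ κ ∈ h, f κ) ≤ ∑ κ ∈ h, prob (f κ) := measureReal_biUnion_finset_le _ _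

theorem borel_cantelli (B : ℕ → Set Oracle) {C : ℝ}
    (h : ∀ n, ∑ i ∈ Finset.range n, prob (B i) ≤ C) :
    randomOracle {A | ∃ᶠ i in Filter.atTop, A ∈ B i} = 0 := by
  apply measure_setOfPred_frequently_eq_zero
  have h1 : ∑' i, randomOracle {A | A ∈ B i} ≤ ENNReal.ofReal C := by
    rw [ENNReal.tsum_eq_iSup_nat]
    apply iSup_le
    intro n
    have h2 : ∑ i ∈ Finset.range n, randomOracle {A | A ∈ B i} =
        ENNReal.ofReal (∑ i ∈ Finset.range n, prob (B i)) := by
      rw [ENNReal.ofReal_sum_of_nonneg fun i _ => M2.prob_nonneg _]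
      refine Finset.sum_congr rfl fun i _ => ?_
      unfold prob
      rw [ofReal_measureReal]
      rfl
    rw [h2]
    exact ENNReal.ofReal_le_ofReal (h n)
  exact ne_top_of_le_ne_top ENNReal.ofReal_ne_top h1

open Classical in
/-- the sum of the probabilities is at most the maximal number of events which occur together -/
theorem sum_prob_le_card {ι : Type*} (I : Finset ι) (E : ι → Set Oracle)
    (hE : ∀ i ∈ I, MeasurableSet (E i)) (C : ℝ)
    (h : ∀ A : Oracle, ((I.filter (fun i => A ∈ E i)).card : ℝ) ≤ C) :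
    ∑ i ∈ I, prob (E i) ≤ C := by
  have h1 : ∀ i ∈ I, prob (E i) = ∫ B, (E i).indicator (fun _ => (1 : ℝ)) B ∂randomOracle := by
    intro i hi
    rw [integral_indicator_const _ (hE i hi)]
    simp [prob]
  have hint : ∀ i ∈ I, Integrable (fun B => (E i).indicator (fun _ => (1 : ℝ)) B)
      randomOracle := fun i hi => (integrable_const (1 : ℝ)).indicator (hE i hi)
  rw [Finset.sum_congr rfl h1, ← integral_finsetSum _ hint]
  have h2 : C = ∫ _B : Oracle, C ∂randomOracle := by simp
  rw [h2]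
  apply integral_mono (integrable_finsetSum _ hint) (integrable_const C)
  intro B
  refine le_trans (le_of_eq ?_) (h B)
  simp only [Set.indicator_apply]
  rw [Finset.sum_ite, Finset.sum_const_zero, add_zero, Finset.sum_const, nsmul_eq_mul, mul_one]

end Pool.Agent.H673R2.OneOne
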