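import Pool.Agent.H673R2.OneOne.Gen

/-!
# Alternating polynomial time (polynomial space) relative to an oracle
-/

namespace Pool.Agent.H673R2.OneOne

open MeasureTheory Pool.Agent.NPC Pool.Agent.H628R3.RO

/-- A game of `n` further rounds. In every round the first player chooses a bit, which is appended
to `e`, and then the second player chooses a bit, which is appended to `f`. The first player wins
if `P` holds in the end. `Win P n e f` means that the first player has a winning strategy. -/
def Win (P : List Bool → List Bool → Prop) : ℕ → List Bool → List Bool → Prop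
  | 0, e, f => P e f
  | n + 1, e, f => ∃ b : Bool, ∀ c : Bool, Win P n (e ++ [b]) (f ++ [c])

/-- Polynomial space relative to `A`, in the form of alternating polynomial time: the language of
all `x` such that the first player has a winning strategy in a game with polynomially many rounds,
where the outcome is decided in polynomial time relative to `A`. -/
def IsPSPACE (A : Oracle) (L : Set (List Bool)) : Prop :=
  ∃ (V : List Bool → List Bool) (p : Polynomial ℕ), IsFP A V ∧ ∀ x, x ∈ L ↔
    Win (fun e f => V (pairBits x (pairBits e f)) = [true]) (p.eval x.length) [] []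

/-- Hardness for polynomial space relative to `A`. -/
def PSPACEHardRel (A : Oracle) (L : Set (List Bool)) : Prop := ∀ L', IsPSPACE A L' → Red A L' L

variable {P Q : List Bool → List Bool → Prop}

theorem win_congr : ∀ (n : ℕ) (e f : List Bool), (∀ e' f' : List Bool,
    e'.length = e.length + n → f'.length = f.length + n → (P e' f' ↔ Q e' f')) →
    (Win P n e f ↔ Win Q n e f) := by
  intro n
  induction n with
  | zero => intro e f h; exact h e f rfl rfl
  | succ n ih =>
    intro e f h
    unfold Win
    refine exists_congr fun b => forall_congr' fun c => ih _ _ fun e' f' he hf => h e' f' ?_ ?_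
    · rw [he, List.length_append, List.length_singleton]
      ring
    · rw [hf, List.length_append, List.length_singleton]
      ring

theorem win_shift (e f : List Bool) : ∀ (n : ℕ) (e' f' : List Bool),
    Win P n (e ++ e') (f ++ f') ↔ Win (fun u v => P (e ++ u) (f ++ v)) n e' f' := by
  intro n
  induction n with
  | zero => intro e' f'; rfl
  | succ n ih =>
    intro e' f'
    unfold Win
    refine exists_congr fun b => forall_congr' fun c => ?_
    rw [List.append_assoc, List.append_assoc]
    exact ih _ _

theorem win_shift' (e f : List Bool) (n : ℕ) :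
    Win P n e f ↔ Win (fun u v => P (e ++ u) (f ++ v)) n [] [] := by
  have := win_shift (P := P) e f n [] []
  rwa [List.append_nil, List.append_nil] at this

theorem win_add (n : ℕ) : ∀ (m : ℕ) (e f : List Bool),
    Win P (m + n) e f ↔ Win (fun e' f' => Win P n e' f') m e f := by
  intro m
  induction m with
  | zero => intro e f; rw [Nat.zero_add]; rfl
  | succ m ih =>
    intro e f
    rw [show m + 1 + n = (m + n) + 1 by ring]
    exact exists_congr fun b => forall_congr' fun c => ih _ _

theorem win_const (p : Prop) : ∀ (n : ℕ) (e f : List Bool), Win (fun _ _ => p) n e f ↔ p := by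
  intro n
  induction n with
  | zero => intro e f; rfl
  | succ n ih =>
    intro e f
    unfold Win
    simp only [ih]
    simp

theorem win_and (p : Prop) : ∀ (n : ℕ) (e f : List Bool),
    Win (fun e f => P e f ∧ p) n e f ↔ Win P n e f ∧ p := by
  intro n
  induction n with
  | zero => intro e f; rfl
  | succ n ih =>
    intro e f
    unfold Win
    simp only [ih]
    constructor
    · rintro ⟨b, h⟩
      exact ⟨⟨b, fun c => (h c).1⟩, (h true).2⟩
    · rintro ⟨⟨b, h⟩, hp⟩
      exact ⟨b, fun c => ⟨h c, hp⟩⟩

theorem win_or (p : Prop) : ∀ (n : ℕ) (e f : List Bool),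
    Win (fun e f => P e f ∨ p) n e f ↔ Win P n e f ∨ p := by
  intro n
  induction n with
  | zero => intro e f; rfl
  | succ n ih =>
    intro e f
    unfold Win
    simp only [ih]
    by_cases hp : p
    · simp [hp]
    · simp [hp]

theorem win_exists {R : List Bool → Prop} : ∀ (n : ℕ) (e f : List Bool),
    Win (fun e _ => R e) n e f ↔ ∃ u : List Bool, u.length = n ∧ R (e ++ u) := by
  intro n
  induction n with
  | zero =>
    intro e f
    constructor
    · intro h
      exact ⟨[], rfl, by rw [List.append_nil]; exact h⟩
    · rintro ⟨u, hu, h⟩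
      rw [List.length_eq_zero_iff.1 hu, List.append_nil] at h
      exact h
  | succ n ih =>
    intro e f
    unfold Win
    simp only [ih]
    constructor
    · rintro ⟨b, h⟩
      obtain ⟨u, hu, h1⟩ := h true
      refine ⟨b :: u, by rw [List.length_cons, hu], ?_⟩
      rw [List.append_assoc] at h1
      exact h1
    · rintro ⟨u, hu, h⟩
      rcases u with _ | ⟨b, u⟩
      · simp at hu
      · refine ⟨b, fun c => ⟨u, by simpa using hu, ?_⟩⟩
        rw [List.append_assoc]
        exact h

/-- two games one after the other -/
theorem win_two (P₁ P₂ : List Bool → List Bool → Prop) (m n : ℕ) :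
    (Win (fun e f => P₁ (e.take m) (f.take m) ∧ P₂ (e.drop m) (f.drop m)) (m + n) [] [] ↔
      Win P₁ m [] [] ∧ Win P₂ n [] []) ∧
    (Win (fun e f => P₁ (e.take m) (f.take m) ∨ P₂ (e.drop m) (f.drop m)) (m + n) [] [] ↔
      Win P₁ m [] [] ∨ Win P₂ n [] []) := by
  have key : ∀ e' f' : List Bool, e'.length = m → f'.length = m → ∀ u v : List Bool,
      ((e' ++ u).take m = e' ∧ (f' ++ v).take m = f') ∧
      ((e' ++ u).drop m = u ∧ (f' ++ v).drop m = v) := by
    rintro e' f' rfl hf u v
    simp only [List.take_left', List.drop_left', hf, and_self]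
  constructor
  · rw [win_add, ← win_and]
    apply win_congr
    intro e' f' he hf
    rw [List.length_nil, zero_add] at he hf
    rw [win_shift']
    have k1 := fun u v => (key e' f' he hf u v).1.1
    have k2 := fun u v => (key e' f' he hf u v).1.2
    have k3 := fun u v => (key e' f' he hf u v).2.1
    have k4 := fun u v => (key e' f' he hf u v).2.2
    simp only [k1 _ [], k2 [] _, k3 _ [], k4 [] _]
    have h := win_and (P := P₂) (P₁ e' f') n [] []
    rw [and_comm] at h
    rw [← h]
    apply win_congr
    intro _ _ _ _
    exact and_comm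
  · rw [win_add, ← win_or]
    apply win_congr
    intro e' f' he hf
    rw [List.length_nil, zero_add] at he hf
    rw [win_shift']
    have k1 := fun u v => (key e' f' he hf u v).1.1
    have k2 := fun u v => (key e' f' he hf u v).1.2
    have k3 := fun u v => (key e' f' he hf u v).2.1
    have k4 := fun u v => (key e' f' he hf u v).2.2
    simp only [k1 _ [], k2 [] _, k3 _ [], k4 [] _]
    have h := win_or (P := P₂) (P₁ e' f') n [] []
    rw [or_comm] at h
    rw [← h]
    apply win_congr
    intro _ _ _ _
    exact or_comm

/-- a game followed by irrelevant rounds -/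
theorem win_pad (P : List Bool → List Bool → Prop) {k m : ℕ} (h : k ≤ m) :
    Win (fun e f => P (e.take k) (f.take k)) m [] [] ↔ Win P k [] [] := by
  have h1 := (win_two P (fun _ _ => True) k (m - k)).1
  rw [win_const] at h1
  simp only [and_true] at h1
  rw [show k + (m - k) = m by omega] at h1
  exact h1

theorem p_take' {α : Type} [TEnc α] {v : α → List Bool} {n : α → ℕ} (hv : Poly v)
    (hn : UPoly n) : Poly (fun a => (v a).take (n a)) := by
  have h1 : UPoly (fun a => (v a).length - n a) :=
    UPoly.of_le (Poly.sub (Poly.length hv) hn.toPoly) (UPoly.length hv) fun a => Nat.sub_le _ _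
  refine (Poly.reverse (p_drop (Poly.reverse hv) h1)).congr fun a => ?_
  rw [List.drop_reverse, List.reverse_reverse]
  rw [List.take_eq_take_iff]
  omega

theorem IsNP.isPSPACE {A : Oracle} {L : Set (List Bool)} (h : IsNP A L) : IsPSPACE A L := by
  obtain ⟨V, p, hV, hL⟩ := h
  have h2 : Poly (fun y : List Bool => (unpair (unpair y).2).1) :=
    Poly.fst (poly_unpair.comp (Poly.snd poly_unpair))
  have h1 : Poly (fun y : List Bool => pairBits (unpair y).1
      ((unpair (unpair y).2).1.drop (lvl (unpair (unpair y).2).1 + 1))) :=
    H622R2.poly_pairBits (Poly.fst poly_unpair) (p_drop h2 (UPoly.add (p_lvl h2) (UPoly.const 1)))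
  refine ⟨_, p + 1, IsFP.comp hV (IsFP.of_poly h1), fun x => ?_⟩
  simp only [unpair_pairBits]
  rw [win_exists, hL]
  simp only [List.nil_append, Polynomial.eval_add, Polynomial.eval_one]
  constructor
  · rintro ⟨w, hw, hV1⟩
    refine ⟨candStr (p.eval x.length - w.length) w, ?_, ?_⟩
    · rw [length_candStr]
      omega
    · rw [lvl_candStr, drop_candStr]
      exact hV1
  · rintro ⟨u, hu, hV1⟩
    refine ⟨_, ?_, hV1⟩
    rw [List.length_drop]
    omega

theorem IsPSPACE.red {A : Oracle} {L L' : Set (List Bool)} (h : Red A L L')
    (h' : IsPSPACE A L') : IsPSPACE A L := by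
  obtain ⟨F, hF, hFL⟩ := h
  obtain ⟨V, p, hV, hL'⟩ := h'
  obtain ⟨b, hb⟩ := hF.length_le
  have h1 : IsFP A (fun y => pairBits (F (unpair y).1) y) :=
    IsFP.pair (IsFP.comp hF (IsFP.of_poly (Poly.fst poly_unpair))) (IsFP.of_poly Poly.id)
  have h2 : Poly (fun t : List Bool => pairBits (unpair t).1
      (pairBits ((unpair (unpair (unpair t).2).2).1.take (p.eval (unpair t).1.length))
        ((unpair (unpair (unpair t).2).2).2.take (p.eval (unpair t).1.length)))) := by
    have g1 : Poly (fun t : List Bool => (unpair t).1) := Poly.fst poly_unpair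
    have g2 : Poly (fun t : List Bool => unpair (unpair (unpair t).2).2) :=
      poly_unpair.comp (Poly.snd (poly_unpair.comp (Poly.snd poly_unpair)))
    have g3 : UPoly (fun t : List Bool => p.eval (unpair t).1.length) :=
      UPoly.eval (UPoly.length g1) p
    exact H622R2.poly_pairBits g1 (H622R2.poly_pairBits (p_take' (Poly.fst g2) g3)
      (p_take' (Poly.snd g2) g3))
  refine ⟨_, p.comp b, IsFP.comp hV (IsFP.comp (IsFP.of_poly h2) h1), fun x => ?_⟩
  rw [hFL, hL']
  simp only [unpair_pairBits, Polynomial.eval_comp]
  exact (win_pad (fun e f => V (pairBits (F x) (pairBits e f)) = [true])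
    (eval_mono p (hb x))).symm

theorem IsPSPACE.both {A : Oracle} {L L' : Set (List Bool)} (h : IsPSPACE A L)
    (h' : IsPSPACE A L') : IsPSPACE A (L ∩ L') ∧ IsPSPACE A (L ∪ L') := by
  obtain ⟨V, p, hV, hL⟩ := h
  obtain ⟨V', p', hV', hL'⟩ := h'
  have h1 : Poly (fun y : List Bool => (unpair y).1) := Poly.fst poly_unpair
  have h2 : Poly (fun y : List Bool => unpair (unpair y).2) :=
    poly_unpair.comp (Poly.snd poly_unpair)
  have h3 : UPoly (fun y : List Bool => p.eval (unpair y).1.length) :=
    UPoly.eval (UPoly.length h1) p
  have h4 : IsFP A (fun y => pairBits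
      (V (pairBits (unpair y).1 (pairBits ((unpair (unpair y).2).1.take
        (p.eval (unpair y).1.length)) ((unpair (unpair y).2).2.take
        (p.eval (unpair y).1.length)))))
      (V' (pairBits (unpair y).1 (pairBits ((unpair (unpair y).2).1.drop
        (p.eval (unpair y).1.length)) ((unpair (unpair y).2).2.drop
        (p.eval (unpair y).1.length)))))) :=
    IsFP.pair (IsFP.comp hV (IsFP.of_poly (H622R2.poly_pairBits h1 (H622R2.poly_pairBits
        (p_take' (Poly.fst h2) h3) (p_take' (Poly.snd h2) h3)))))
      (IsFP.comp hV' (IsFP.of_poly (H622R2.poly_pairBits h1 (H622R2.poly_pairBits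
        (p_drop (Poly.fst h2) h3) (p_drop (Poly.snd h2) h3)))))
  have h5 : Poly (fun t : List Bool => [decide ((unpair t).1 = [true]) &&
      decide ((unpair t).2 = [true])]) :=
    Poly.cons (Poly.and (Poly.decide_eq (Poly.fst poly_unpair) (NPC.Poly.const [true]))
      (Poly.decide_eq (Poly.snd poly_unpair) (NPC.Poly.const [true]))) (NPC.Poly.const [])
  have h6 : Poly (fun t : List Bool => [decide ((unpair t).1 = [true]) ||
      decide ((unpair t).2 = [true])]) :=
    Poly.cons (Poly.or (Poly.decide_eq (Poly.fst poly_unpair) (NPC.Poly.const [true]))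
      (Poly.decide_eq (Poly.snd poly_unpair) (NPC.Poly.const [true]))) (NPC.Poly.const [])
  constructor
  · have h7 := IsFP.comp (IsFP.of_poly (A := A) h5) h4
    simp only [unpair_pairBits] at h7
    refine ⟨_, p + p', h7, fun x => ?_⟩
    rw [Set.mem_inter_iff, hL, hL', Polynomial.eval_add]
    rw [← (win_two _ _ _ _).1]
    simp only [unpair_pairBits, List.cons.injEq, and_true, Bool.and_eq_true, decide_eq_true_eq]
  · have h7 := IsFP.comp (IsFP.of_poly (A := A) h6) h4
    simp only [unpair_pairBits] at h7
    refine ⟨_, p + p', h7, fun x => ?_⟩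
    rw [Set.mem_union, hL, hL', Polynomial.eval_add]
    rw [← (win_two _ _ _ _).2]
    simp only [unpair_pairBits, List.cons.injEq, and_true, Bool.or_eq_true, decide_eq_true_eq]

theorem pspace_case {A : Oracle} (hA : ∀ M : Alg, Good A M) {B : Set (List Bool)}
    (hB : PSPACEHardRel A B) {L : Set (List Bool)} (hL : IsPSPACE A L) : Red1 A L B :=
  general hA (IsPSPACE A)
    (fun _ _ h h' => (IsPSPACE.both (IsNP.isPSPACE h') h).1)
    (fun _ _ h h' => (IsPSPACE.both h (IsNP.isPSPACE h')).2)
    (fun _ _ h h' => IsPSPACE.red h h') hB hL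

end Pool.Agent.H673R2.OneOne
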