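import Pool.Agent.H673R2.OneOne.Perm
import Pool.Agent.H628R3.RO.A1

/-!
# Query algorithms
-/

namespace Pool.Agent.H673R2.OneOne

open MeasureTheory Pool.Agent.NPC Pool.Agent.H628R3.RO

namespace QA

/-- no question -/
def pure {β : Type} (b : β) : QA β where
  val := fun _ => b
  qs := fun _ => ∅
  loc := fun _ _ _ => ⟨rfl, rfl⟩

/-- one question -/
def bit (x : List Bool) : QA Bool where
  val := fun A => A x
  qs := fun _ => {x}
  loc := fun _ _ h => ⟨h x (Finset.mem_singleton_self x), rfl⟩

/-- two query algorithms one after the other -/
def bind {β γ : Type} (F : QA β) (G : β → QA γ) : QA γ where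
  val := fun A => (G (F.val A)).val A
  qs := fun A => F.qs A ∪ (G (F.val A)).qs A
  loc := fun A A' h => by
    obtain ⟨h1, h2⟩ := F.loc A A' fun x hx => h x (Finset.mem_union_left _ hx)
    obtain ⟨h3, h4⟩ := (G (F.val A)).loc A A' fun x hx => h x (Finset.mem_union_right _ hx)
    rw [h1, h2, h3, h4]
    exact ⟨rfl, rfl⟩

/-- a function of the value -/
def map {β γ : Type} (g : β → γ) (F : QA β) : QA γ where
  val := fun A => g (F.val A)
  qs := F.qs
  loc := fun A A' h => by
    obtain ⟨h1, h2⟩ := F.loc A A' h
    rw [h1]
    exact ⟨rfl, h2⟩

/-- reading a block -/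
def read (l : ℕ) (κ : Cand) : QA (List Bool) where
  val := fun A => rd l κ.1 κ.2 A
  qs := fun _ => spots l κ
  loc := fun A A' h => by
    refine ⟨?_, rfl⟩
    apply List.map_congr_left
    intro i hi
    exact h _ (M2.mem_spots.2 ⟨i, List.mem_range.1 hi, rfl⟩)

/-- the computation of an oracle algorithm -/
def run (M : Alg) (x : List Bool) : ℕ → List Bool → QA (Option (List Bool))
  | 0, _ => pure none
  | n + 1, a =>
    match M.D (pairBits x a) with
    | [] => pure (some [])
    | true :: z => pure (some z)
    | false :: q => (bit q).bind (fun b => run M x n (a ++ [b]))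

theorem run_val (M : Alg) (x : List Bool) (A : Oracle) : ∀ (n : ℕ) (a : List Bool),
    (run M x n a).val A = M.run A x n a := by
  intro n
  induction n with
  | zero => intro a; rfl
  | succ n ih =>
    intro a
    rcases hq : M.D (pairBits x a) with _ | ⟨c, q⟩
    · simp only [run, Alg.run, hq]
      rfl
    · cases c with
      | true =>
        simp only [run, Alg.run, hq]
        rfl
      | false =>
        simp only [run, Alg.run, hq]
        exact ih _

theorem run_card (M : Alg) (x : List Bool) (A : Oracle) : ∀ (n : ℕ) (a : List Bool),
    ((run M x n a).qs A).card ≤ n := by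
  intro n
  induction n with
  | zero => intro a; simp [run, pure]
  | succ n ih =>
    intro a
    rcases hq : M.D (pairBits x a) with _ | ⟨c, q⟩
    · simp [run, hq, pure]
    · cases c with
      | true => simp [run, hq, pure]
      | false =>
        simp only [run, hq]
        refine (Finset.card_union_le _ _).trans ?_
        have h1 := ih (a ++ [A q])
        have h2 : ((bit q).qs A).card = 1 := by simp [bit]
        have h3 : ((bit q).val A) = A q := rfl
        rw [h3]
        have h4 : (((fun b => run M x n (a ++ [b])) (A q)).qs A).card ≤ n := h1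
        omega

theorem run_length (M : Alg) (x : List Bool) (A : Oracle) {b : ℕ}
    (hb : ∀ a : List Bool, a.length ≤ M.p.eval x.length → (M.D (pairBits x a)).length ≤ b) :
    ∀ (n : ℕ) (a : List Bool), a.length + n ≤ M.p.eval x.length →
      ∀ y ∈ (run M x n a).qs A, y.length ≤ b := by
  intro n
  induction n with
  | zero => intro a _; simp [run, pure]
  | succ n ih =>
    intro a ha
    have hD := hb a (by omega)
    rcases hq : M.D (pairBits x a) with _ | ⟨c, q⟩
    · simp [run, hq, pure]
    · cases c with
      | true => simp [run, hq, pure]
      | false =>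
        simp only [run, hq]
        intro y hy
        rcases Finset.mem_union.1 hy with hy | hy
        · have : y = q := Finset.mem_singleton.1 hy
          subst this
          rw [hq, List.length_cons] at hD
          omega
        · exact ih _ (by rw [List.length_append, List.length_singleton]; omega) y hy

/-- the output of an oracle algorithm -/
def out (M : Alg) (x : List Bool) : QA (Option (List Bool)) := run M x (M.p.eval x.length) []

theorem out_val (M : Alg) (x : List Bool) (A : Oracle) : (out M x).val A = M.out A x :=
  run_val M x A _ _

theorem out_card (M : Alg) (x : List Bool) (A : Oracle) :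
    ((out M x).qs A).card ≤ M.p.eval x.length := run_card M x A _ _

theorem out_length (M : Alg) : ∃ b : Polynomial ℕ, ∀ (x : List Bool) (A : Oracle),
    ∀ y ∈ (out M x).qs A, y.length ≤ b.eval x.length := by
  obtain ⟨b, hb⟩ := M.next_length
  exact ⟨b, fun x A => run_length M x A (hb x) _ _ (by simp)⟩

/-- an event given by a query algorithm with bounded questions -/
theorem loc_val {β : Type} (F : QA β) {N : ℕ} (hN : ∀ A, ∀ x ∈ F.qs A, x.length ≤ N)
    (P : β → Finset (List Bool) → Prop) :
    Loc {x | x.length ≤ N} {A | P (F.val A) (F.qs A)} := by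
  intro A A' h
  obtain ⟨h1, h2⟩ := F.loc A A' fun x hx => (h x (hN A x hx)).symm
  simp only [Set.mem_ofPred_eq, h1, h2]

end QA

end Pool.Agent.H673R2.OneOne
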